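import Pool.Agent.X297.PB.Walk
import Mathlib.Data.Int.Interval
import Mathlib.Data.Pi.Interval

/-!
# Subcritical edges
-/

open MeasureTheory

namespace Pool.Agent.X297.PB

variable {m : ℕ}

/-- The probability of a long connection in a set of edges of small probability. -/
lemma far_le {π : Edge m → ℝ} (h : ∀ e, 0 ≤ π e ∧ π e ≤ 1) (C : Finset (Edge m))
    (S : Set (Edge m)) (hCS : ∀ e ∈ C, e ∉ S) {p : ℝ} (hS : ∀ e ∈ S, π e ≤ p) (v : V m)
    {D : V m → V m → ℤ} (hD0 : D v v ≤ 0)
    (hD : ∀ x y d, y = x + vec d → D v y ≤ D v x + 1) (L : ℕ) :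
    perc π {ω | (∀ e ∈ C, ω e = false) ∧
      ∃ w, Relation.ReflTransGen (Adj (res S ω)) v w ∧ (L : ℤ) ≤ D v w} ≤
      (∏ e ∈ C, ENNReal.ofReal (1 - π e)) * ENNReal.ofReal (2 * (m + 1) * p) ^ L := by
  refine (measure_mono ?_).trans (perc_walks h C S hCS hS v L)
  rintro ω ⟨h1, w, h2, h3⟩
  obtain ⟨s, hs1, hs2⟩ := exists_walk h2 hD0 hD h3
  exact ⟨h1, s, hs1, fun k => res_true.1 (hs2 k)⟩

/-- The `ℓ¹` norm. -/
def nrm (v : V m) : ℤ := ∑ i, |v.1 i| + |v.2|

lemma nrm_add (v w : V m) : nrm (v + w) ≤ nrm v + nrm w := by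
  have h1 : ∑ i, |v.1 i + w.1 i| ≤ ∑ i, |v.1 i| + ∑ i, |w.1 i| := by
    rw [← Finset.sum_add_distrib]
    exact Finset.sum_le_sum fun i _ => abs_add_le _ _
  have h2 := abs_add_le v.2 w.2
  simp only [nrm, Prod.fst_add, Prod.snd_add, Pi.add_apply]
  linarith

lemma nrm_neg (v : V m) : nrm (-v) = nrm v := by
  simp [nrm]

lemma nrm_unit (i : Option (Fin m)) : nrm (unit m i) = 1 := by
  rcases i with _ | i
  · simp [nrm, unit]
  · simp only [nrm, unit, abs_zero, add_zero]
    rw [Finset.sum_eq_single i]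
    · simp
    · intro j _ hj
      simp [Pi.single_eq_of_ne hj]
    · intro h
      exact absurd (Finset.mem_univ _) h

lemma nrm_vec (d : Dir m) : nrm (vec d) = 1 := by
  rw [vec]
  split_ifs
  · exact nrm_unit _
  · rw [nrm_neg, nrm_unit]

lemma abs_snd_vec (d : Dir m) : |(vec d).2| ≤ 1 := by
  rw [← nrm_vec d, nrm]
  exact le_add_of_nonneg_left (Finset.sum_nonneg fun i _ => abs_nonneg _)

lemma finite_ball (v : V m) (L : ℤ) : {w : V m | nrm (w - v) ≤ L}.Finite := by
  classical
  refine (Set.finite_Icc ((fun i => v.1 i - L, v.2 - L) : V m)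
    ((fun i => v.1 i + L, v.2 + L) : V m)).subset ?_
  intro w hw
  have hw' : nrm (w - v) ≤ L := hw
  rw [nrm] at hw'
  have h1 : ∀ i, |w.1 i - v.1 i| ≤ L := by
    intro i
    refine le_trans ?_ hw'
    refine le_trans ?_ (le_add_of_nonneg_right (abs_nonneg _))
    exact Finset.single_le_sum (f := fun i => |(w - v).1 i|) (fun i _ => abs_nonneg _)
      (Finset.mem_univ i)
  have h2 : |w.2 - v.2| ≤ L :=
    le_trans (le_add_of_nonneg_left (Finset.sum_nonneg fun i _ => abs_nonneg _)) hw'
  refine ⟨⟨fun i => ?_, ?_⟩, ⟨fun i => ?_, ?_⟩⟩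
  · have := abs_le.1 (h1 i)
    simp only
    linarith
  · have := abs_le.1 h2
    simp only
    linarith
  · have := abs_le.1 (h1 i)
    simp only
    linarith
  · have := abs_le.1 h2
    simp only
    linarith

/-- There are no infinite clusters of edges of small probability. -/
lemma null_inf {π : Edge m → ℝ} (h : ∀ e, 0 ≤ π e ∧ π e ≤ 1) (S : Set (Edge m)) {p : ℝ}
    (hS : ∀ e ∈ S, π e ≤ p) (hp : 2 * (m + 1) * p < 1) (v : V m) :
    perc π {ω | {w | Relation.ReflTransGen (Adj (res S ω)) v w}.Infinite} = 0 := by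
  have h1 : ∀ L : ℕ, perc π {ω | {w | Relation.ReflTransGen (Adj (res S ω)) v w}.Infinite} ≤
      ENNReal.ofReal (2 * (m + 1) * p) ^ L := by
    intro L
    have h2 := far_le h ∅ S (by simp) hS v (D := fun v w => nrm (w - v))
      (by simp [nrm]) (by
        rintro x y d rfl
        have := nrm_add (x - v) (vec d)
        rw [nrm_vec] at this
        rwa [show x + vec d - v = x - v + vec d by abel]) L
    simp only [Finset.notMem_empty, false_imp_iff, implies_true, true_and, Finset.prod_empty,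
      one_mul] at h2
    refine (measure_mono ?_).trans h2
    intro ω hω
    by_contra hcon
    apply hω
    refine (finite_ball v L).subset ?_
    intro w hw
    by_contra h3
    exact hcon ⟨w, hw, (not_le.1 h3).le⟩
  have h3 : Filter.Tendsto (fun L : ℕ => ENNReal.ofReal (2 * (m + 1) * p) ^ L) Filter.atTop
      (nhds 0) := by
    apply ENNReal.tendsto_pow_atTop_nhds_zero_of_lt_one
    rw [← ENNReal.ofReal_one]
    exact (ENNReal.ofReal_lt_ofReal_iff zero_lt_one).2 hp
  exact le_antisymm (ge_of_tendsto' h3 h1) zero_le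

/-- The critical probability is at least `1 / (2 d)`. -/
lemma le_pc : 1 / (2 * (m + 1) : ℝ) ≤ pc m := by
  refine le_of_forall_lt fun t ht => ?_
  by_cases ht0 : t < 0
  · refine ht0.trans_le ?_
    refine Real.sSup_nonneg fun p hp => hp.1
  · obtain ⟨p, hp1, hp2⟩ := exists_between ht
    have h0 : 0 ≤ p := by linarith
    have h1 : p ≤ 1 := by
      refine hp2.le.trans ?_
      rw [div_le_one (by positivity)]
      have : (0 : ℝ) ≤ m := Nat.cast_nonneg m
      linarith
    refine hp1.trans_le ?_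
    refine le_csSup ⟨1, fun p hp => hp.2.1⟩ ⟨h0, h1, ?_⟩
    have h3 := null_inf (m := m) (π := fun _ => p) (fun _ => ⟨h0, h1⟩) Set.univ
      (fun _ _ => le_rfl) (by
        rw [lt_div_iff₀ (by positivity)] at hp2
        linarith) 0
    have h4 : ∀ ω : Config m, res Set.univ ω = ω := by
      intro ω
      funext e
      simp [res]
    simp only [h4] at h3
    exact h3

end Pool.Agent.X297.PB
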