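import Pool.Agent.X297.PB.Defs

/-!
# Probabilities of cylinder events
-/

open MeasureTheory

namespace Pool.Agent.X297.PB

variable {m : ℕ}

lemma bern_true {t : ℝ} : bern t {true} = ENNReal.ofReal t := by
  simp [bern]

lemma bern_false {t : ℝ} : bern t {false} = ENNReal.ofReal (1 - t) := by
  simp [bern]

lemma isProb_bern {t : ℝ} (h0 : 0 ≤ t) (h1 : t ≤ 1) : IsProbabilityMeasure (bern t) := by
  constructor
  simp only [bern, Measure.coe_add, Measure.coe_smul, Pi.add_apply, Pi.smul_apply,
    measure_univ, smul_eq_mul, mul_one]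
  rw [← ENNReal.ofReal_add h0 (by linarith)]
  simp

/-- The probability that the edges of `C` are closed and the edges of `O` are open. -/
lemma perc_cyl {π : Edge m → ℝ} (h : ∀ e, 0 ≤ π e ∧ π e ≤ 1) (C O : Finset (Edge m))
    (hCO : Disjoint C O) :
    perc π {ω | (∀ e ∈ C, ω e = false) ∧ ∀ e ∈ O, ω e = true} =
      (∏ e ∈ C, ENNReal.ofReal (1 - π e)) * ∏ e ∈ O, ENNReal.ofReal (π e) := by
  classical
  have : ∀ e, IsProbabilityMeasure (bern (π e)) := fun e => isProb_bern (h e).1 (h e).2
  have h1 : {ω : Config m | (∀ e ∈ C, ω e = false) ∧ ∀ e ∈ O, ω e = true} =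
      Set.pi (C ∪ O : Finset (Edge m)) (fun e => if e ∈ C then {false} else {true}) := by
    ext ω
    simp only [Set.mem_ofPred_eq, Set.mem_pi, Finset.mem_coe, Finset.mem_union]
    constructor
    · rintro ⟨h2, h3⟩ e he
      by_cases hC : e ∈ C
      · rw [if_pos hC]
        exact h2 e hC
      · rw [if_neg hC]
        exact h3 e (he.resolve_left hC)
    · intro h2
      refine ⟨fun e he => ?_, fun e he => ?_⟩
      · have := h2 e (Or.inl he)
        rw [if_pos he] at this
        exact this
      · have := h2 e (Or.inr he)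
        rw [if_neg (Finset.disjoint_right.1 hCO he)] at this
        exact this
  rw [perc, h1, Measure.infinitePi_pi _ (fun e _ => by split_ifs <;> exact MeasurableSet.singleton _),
    Finset.prod_union hCO]
  congr 1
  · refine Finset.prod_congr rfl fun e he => ?_
    rw [if_pos he, bern_false]
  · refine Finset.prod_congr rfl fun e he => ?_
    rw [if_neg (Finset.disjoint_right.1 hCO he), bern_true]

lemma isProb_perc {π : Edge m → ℝ} (h : ∀ e, 0 ≤ π e ∧ π e ≤ 1) :
    IsProbabilityMeasure (perc π) := by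
  have : ∀ e, IsProbabilityMeasure (bern (π e)) := fun e => isProb_bern (h e).1 (h e).2
  rw [perc]
  infer_instance

/-- Directions: a unit vector and a sign. -/
abbrev Dir (m : ℕ) := Option (Fin m) × Bool

/-- The vector of a direction. -/
def vec (d : Dir m) : V m := if d.2 then unit m d.1 else - unit m d.1

/-- The positions of a walk. -/
def pos (v : V m) {L : ℕ} (s : Fin L → Dir m) (k : ℕ) : V m :=
  v + ∑ j : Fin L, if (j : ℕ) < k then vec (s j) else 0

/-- The edges of a walk. -/
def edg (v : V m) {L : ℕ} (s : Fin L → Dir m) (k : Fin L) : Edge m :=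
  if (s k).2 then (pos v s k, (s k).1) else (pos v s (k + 1), (s k).1)

lemma pos_zero (v : V m) {L : ℕ} (s : Fin L → Dir m) : pos v s 0 = v := by
  simp [pos]

lemma pos_succ (v : V m) {L : ℕ} (s : Fin L → Dir m) (k : Fin L) :
    pos v s (k + 1) = pos v s k + vec (s k) := by
  have h : ∀ j : Fin L, (if (j : ℕ) < k + 1 then vec (s j) else 0) =
      (if (j : ℕ) < k then vec (s j) else 0) + if j = k then vec (s j) else 0 := by
    intro j
    rcases lt_trichotomy (j : ℕ) (k : ℕ) with h | h | h
    · rw [if_pos (by omega), if_pos h, if_neg (fun h' => by subst h'; omega), add_zero]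
    · have h' : j = k := Fin.ext h
      subst h'
      simp
    · rw [if_neg (by omega), if_neg (by omega), if_neg (fun h' => by subst h'; omega), add_zero]
  rw [pos, pos, Finset.sum_congr rfl fun j _ => h j, Finset.sum_add_distrib]
  simp [add_assoc]

/-- The endpoints of the edges of a walk. -/
lemma edg_ends (v : V m) {L : ℕ} (s : Fin L → Dir m) (k : Fin L) :
    ((edg v s k).1 = pos v s k ∧ (edg v s k).1 + unit m (edg v s k).2 = pos v s (k + 1)) ∨
    ((edg v s k).1 = pos v s (k + 1) ∧ (edg v s k).1 + unit m (edg v s k).2 = pos v s k) := by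
  rw [edg]
  by_cases h : (s k).2 = true
  · left
    rw [if_pos h]
    refine ⟨rfl, ?_⟩
    rw [pos_succ, vec, if_pos h]
  · right
    rw [if_neg h]
    refine ⟨rfl, ?_⟩
    rw [pos_succ, vec, if_neg h]
    exact neg_add_cancel_right _ _

/-- The edges of a self-avoiding walk are distinct. -/
lemma edg_injective {v : V m} {L : ℕ} {s : Fin L → Dir m}
    (hs : ∀ i j, i ≤ L → j ≤ L → pos v s i = pos v s j → i = j) : Function.Injective (edg v s) := by
  have key : ∀ i j : Fin L, i < j → edg v s i ≠ edg v s j := by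
    intro i j hij h
    have hi : (i : ℕ) + 1 ≤ L := i.2
    have hj : (j : ℕ) + 1 ≤ L := j.2
    have hij' : (i : ℕ) < j := hij
    have h1 := edg_ends v s i
    have h2 := edg_ends v s j
    rw [← h] at h2
    rcases h1 with h1 | h1 <;> rcases h2 with h2 | h2
    · have := hs _ _ (by omega) (by omega) (h1.1.symm.trans h2.1)
      omega
    · have := hs _ _ (by omega) (by omega) (h1.1.symm.trans h2.1)
      omega
    · have := hs _ _ (by omega) (by omega) (h1.2.symm.trans h2.2)
      omega
    · have := hs _ _ (by omega) (by omega) (h1.2.symm.trans h2.2)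
      omega
  intro i j h
  rcases lt_trichotomy i j with h1 | h1 | h1
  · exact absurd h (key i j h1)
  · exact h1
  · exact absurd h.symm (key j i h1)

lemma card_dir : Fintype.card (Dir m) = 2 * (m + 1) := by
  simp [mul_comm]

/-- The probability that a given set of edges is closed and there is an open self-avoiding walk of
length `L` from `v` in a set of edges of probability at most `p`. -/
lemma perc_walks {π : Edge m → ℝ} (h : ∀ e, 0 ≤ π e ∧ π e ≤ 1) (C : Finset (Edge m))
    (S : Set (Edge m)) (hCS : ∀ e ∈ C, e ∉ S) {p : ℝ} (hS : ∀ e ∈ S, π e ≤ p) (v : V m) (L : ℕ) :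
    perc π {ω | (∀ e ∈ C, ω e = false) ∧ ∃ s : Fin L → Dir m,
      (∀ i j, i ≤ L → j ≤ L → pos v s i = pos v s j → i = j) ∧
        ∀ k, ω (edg v s k) = true ∧ edg v s k ∈ S} ≤
      (∏ e ∈ C, ENNReal.ofReal (1 - π e)) * ENNReal.ofReal (2 * (m + 1) * p) ^ L := by
  classical
  have h1 : {ω : Config m | (∀ e ∈ C, ω e = false) ∧ ∃ s : Fin L → Dir m,
      (∀ i j, i ≤ L → j ≤ L → pos v s i = pos v s j → i = j) ∧
        ∀ k, ω (edg v s k) = true ∧ edg v s k ∈ S} =
      ⋃ s : Fin L → Dir m, {ω | (∀ e ∈ C, ω e = false) ∧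
        (∀ i j, i ≤ L → j ≤ L → pos v s i = pos v s j → i = j) ∧
        ∀ k, ω (edg v s k) = true ∧ edg v s k ∈ S} := by
    ext ω
    simp only [Set.mem_ofPred_eq, Set.mem_iUnion]
    constructor
    · rintro ⟨h2, s, h3⟩
      exact ⟨s, h2, h3⟩
    · rintro ⟨s, h2, h3⟩
      exact ⟨h2, s, h3⟩
  rw [h1]
  refine (measure_iUnion_fintype_le _ _).trans ?_
  have h2 : ∀ s : Fin L → Dir m, perc π {ω | (∀ e ∈ C, ω e = false) ∧
        (∀ i j, i ≤ L → j ≤ L → pos v s i = pos v s j → i = j) ∧
        ∀ k, ω (edg v s k) = true ∧ edg v s k ∈ S} ≤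
      (∏ e ∈ C, ENNReal.ofReal (1 - π e)) * ENNReal.ofReal p ^ L := by
    intro s
    by_cases h3 : (∀ i j, i ≤ L → j ≤ L → pos v s i = pos v s j → i = j) ∧ ∀ k, edg v s k ∈ S
    · have h4 : {ω : Config m | (∀ e ∈ C, ω e = false) ∧
          (∀ i j, i ≤ L → j ≤ L → pos v s i = pos v s j → i = j) ∧
          ∀ k, ω (edg v s k) = true ∧ edg v s k ∈ S} ⊆
          {ω | (∀ e ∈ C, ω e = false) ∧ ∀ e ∈ Finset.univ.image (edg v s), ω e = true} := by
        rintro ω ⟨h5, -, h6⟩
        refine ⟨h5, fun e he => ?_⟩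
        obtain ⟨k, -, rfl⟩ := Finset.mem_image.1 he
        exact (h6 k).1
      refine (measure_mono h4).trans ?_
      rw [perc_cyl h]
      · gcongr
        rw [Finset.prod_image fun i _ j _ hij => edg_injective h3.1 hij]
        refine (Finset.prod_le_pow_card _ _ (ENNReal.ofReal p) fun k _ =>
          ENNReal.ofReal_le_ofReal (hS _ (h3.2 k))).trans ?_
        rw [Finset.card_univ, Fintype.card_fin]
      · rw [Finset.disjoint_right]
        intro e he
        obtain ⟨k, -, rfl⟩ := Finset.mem_image.1 he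
        exact fun hC => hCS _ hC (h3.2 k)
    · have h4 : {ω : Config m | (∀ e ∈ C, ω e = false) ∧
          (∀ i j, i ≤ L → j ≤ L → pos v s i = pos v s j → i = j) ∧
          ∀ k, ω (edg v s k) = true ∧ edg v s k ∈ S} = ∅ := by
        rw [Set.eq_empty_iff_forall_notMem]
        rintro ω ⟨h5, h6, h7⟩
        exact h3 ⟨h6, fun k => (h7 k).2⟩
      rw [h4, measure_empty]
      exact zero_le
  refine (Finset.sum_le_sum fun s _ => h2 s).trans ?_
  rw [Finset.sum_const, Finset.card_univ, Fintype.card_fun, card_dir, Fintype.card_fin,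
    nsmul_eq_mul]
  have h3 : ENNReal.ofReal (2 * (m + 1) * p) = ((2 * (m + 1) : ℕ) : ENNReal) * ENNReal.ofReal p := by
    rw [ENNReal.ofReal_mul (by positivity), ← ENNReal.ofReal_natCast]
    push_cast
    rfl
  rw [h3, mul_pow (((2 * (m + 1) : ℕ) : ENNReal)), Nat.cast_pow]
  exact (mul_left_comm _ _ _).le

end Pool.Agent.X297.PB
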