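import Mathlib.Probability.ProductMeasure
import Mathlib.Probability.Independence.Basic
import Mathlib.Analysis.SpecialFunctions.Log.Basic

/-!
# Bond percolation on stacked random boxes: definitions
-/

open MeasureTheory

namespace Pool.Agent.X297.PB

/-- The vertices of `ℤ ^ d = ℤ ^ (d - 1) × ℤ`, where `m = d - 1`. -/
abbrev V (m : ℕ) := (Fin m → ℤ) × ℤ

variable {m : ℕ}

/-- The unit vectors; `none` is the last direction. -/
def unit (m : ℕ) : Option (Fin m) → V m
  | some i => (Pi.single i 1, 0)
  | none => (0, 1)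

/-- The nearest-neighbour edges; the edge `(v, i)` joins `v` and `v + unit m i`. -/
abbrev Edge (m : ℕ) := V m × Option (Fin m)

/-- `ω e = true` means that the edge `e` is open. -/
abbrev Config (m : ℕ) := Edge m → Bool

/-- `v` and `w` are joined by an open edge. -/
def Adj (ω : Config m) (v w : V m) : Prop :=
  ∃ i, (w = v + unit m i ∧ ω (v, i) = true) ∨ (v = w + unit m i ∧ ω (w, i) = true)

/-- The open cluster of `v`. -/
def cluster (ω : Config m) (v : V m) : Set (V m) := {w | Relation.ReflTransGen (Adj ω) v w}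

/-- The law of a variable which is `true` with probability `t` and `false` with probability
`1 - t`, for `0 ≤ t ≤ 1`. -/
noncomputable def bern (t : ℝ) : Measure Bool :=
  ENNReal.ofReal t • Measure.dirac true + ENNReal.ofReal (1 - t) • Measure.dirac false

/-- The product measure: the edge `e` is open with probability `π e`, independently. -/
noncomputable def perc (π : Edge m → ℝ) : Measure (Config m) :=
  Measure.infinitePi fun e => bern (π e)

/-- The critical probability of homogeneous Bernoulli bond percolation on `ℤ ^ (m + 1)`. -/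
noncomputable def pc (m : ℕ) : ℝ :=
  sSup {p : ℝ | 0 ≤ p ∧ p ≤ 1 ∧ perc (fun _ : Edge m => p) {ω | (cluster ω 0).Infinite} = 0}

/-- The box `B(a, r)`: distance (in the `ℓ¹` distance of `ℤ ^ m`) at most `r` from the last axis and
last coordinate in `[a - r, a + r]`. -/
def box (m : ℕ) (a : ℤ) (r : ℕ) : Set (V m) :=
  {v | ∑ i, (v.1 i).natAbs ≤ r ∧ a - r ≤ v.2 ∧ v.2 ≤ a + r}

/-- The centres `Z(n)` of the boxes. -/
noncomputable def Z (X : ℤ → ℕ) (n : ℤ) : ℤ :=
  if n = 0 then 0
  else if 0 < n then X 0 + 2 * ∑ i ∈ Finset.Ioo 0 n, (X i : ℤ) + X n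
  else -X 0 - 2 * ∑ i ∈ Finset.Ioo n 0, (X i : ℤ) - X n

/-- The union of the stacked boxes. -/
def R (m : ℕ) (X : ℤ → ℕ) : Set (V m) := ⋃ n, box m (Z X n) (X n)

open Classical in
/-- The edges with both endpoints in `R` have probability `q`, the other edges probability `p`. -/
noncomputable def prob (m : ℕ) (X : ℤ → ℕ) (p q : ℝ) (e : Edge m) : ℝ :=
  if e.1 ∈ R m X ∧ e.1 + unit m e.2 ∈ R m X then q else p

/-- The quenched percolation probability of the Stack Model. -/
noncomputable def theta (m : ℕ) (X : ℤ → ℕ) (p q : ℝ) : ENNReal :=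
  perc (prob m X p q) {ω | (cluster ω 0).Infinite}

end Pool.Agent.X297.PB
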