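import Pool.Agent.X297.PB.Quench
import Mathlib.Analysis.SpecialFunctions.Exp
import Mathlib.Analysis.PSeries
import Mathlib.Analysis.Complex.ExponentialBounds

/-!
# The environment: good bottlenecks exist
-/

open MeasureTheory ProbabilityTheory Filter

namespace Pool.Agent.X297.PB

/-- The condition fails at distance `i`. -/
def fl (m N : ℕ) (J : ℕ → ℕ) (i : ℕ) : Prop :=
  N * (1 + 2 * ∑ l ∈ Finset.range i, 2 ^ J l) < (m + 1) * (J i + 2) + (i + 5)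

/-- Good up to distance `ℓ`. -/
def wg (m N : ℕ) (κ : ℤ → ℕ) (n : ℤ) (ℓ : ℕ) : Prop :=
  κ n = 0 ∧ ∀ i < ℓ, ¬ fl m N (fun l => κ (n + 1 + l)) i ∧ ¬ fl m N (fun l => κ (n - 1 - l)) i

lemma fl_congr {m N : ℕ} {J J' : ℕ → ℕ} {i : ℕ} (h : ∀ l ≤ i, J l = J' l) :
    fl m N J i ↔ fl m N J' i := by
  have h1 : ∑ l ∈ Finset.range i, 2 ^ J l = ∑ l ∈ Finset.range i, 2 ^ J' l :=
    Finset.sum_congr rfl fun l hl => by rw [h l (Finset.mem_range.1 hl).le]
  rw [fl, fl, h1, h i le_rfl]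

lemma wg_congr {m N : ℕ} {κ κ' : ℤ → ℕ} {n : ℤ} {ℓ : ℕ}
    (h : ∀ j ∈ Finset.Icc (n - ℓ) (n + ℓ), κ j = κ' j) : wg m N κ n ℓ ↔ wg m N κ' n ℓ := by
  rw [wg, wg]
  refine and_congr ?_ (forall₂_congr fun i hi => and_congr (not_congr ?_) (not_congr ?_))
  · rw [h n (by rw [Finset.mem_Icc]; omega)]
  · exact fl_congr fun l hl => h _ (by rw [Finset.mem_Icc]; omega)
  · exact fl_congr fun l hl => h _ (by rw [Finset.mem_Icc]; omega)

lemma pow_four_le (r : ℕ) : (r + 1) ^ 4 ≤ 64 * 2 ^ r := by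
  rcases Nat.lt_or_ge r 6 with h | h
  · interval_cases r <;> norm_num
  · induction r, h using Nat.le_induction with
    | base => norm_num
    | succ r hr ih =>
      have h1 : (r + 1 + 1) ^ 4 ≤ 2 * (r + 1) ^ 4 := by
        obtain ⟨s, rfl⟩ := Nat.exists_eq_add_of_le hr
        nlinarith [sq_nonneg s, Nat.zero_le s, Nat.zero_le (s ^ 2), Nat.zero_le (s ^ 3),
          Nat.zero_le (s ^ 4)]
      calc (r + 1 + 1) ^ 4 ≤ 2 * (r + 1) ^ 4 := h1
        _ ≤ 2 * (64 * 2 ^ r) := Nat.mul_le_mul_left _ ih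
        _ = 64 * 2 ^ (r + 1) := by ring

/-- The condition holds, if the value at distance `i` is not too large and one of the values before is
not too small. -/
lemma fl_imp {m N : ℕ} (hN : 64 * (m + 6) ≤ N) {J : ℕ → ℕ} {i : ℕ} (h : fl m N J i) :
    i ^ 2 ≤ J i ∨ ∀ l < i, J l < Nat.sqrt i := by
  by_contra hcon
  push Not at hcon
  obtain ⟨h1, l, hl, h2⟩ := hcon
  have h3 : 2 ^ Nat.sqrt i ≤ ∑ l ∈ Finset.range i, 2 ^ J l :=
    le_trans (Nat.pow_le_pow_right (by norm_num) h2)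
      (Finset.single_le_sum (f := fun l => 2 ^ J l) (fun _ _ => Nat.zero_le _)
        (Finset.mem_range.2 hl))
  have h4 : i + 1 ≤ (Nat.sqrt i + 1) ^ 2 := by
    have := Nat.lt_succ_sqrt' i
    exact this
  have h5 : (i + 1) ^ 2 ≤ 64 * 2 ^ Nat.sqrt i := by
    refine le_trans ?_ (pow_four_le _)
    calc (i + 1) ^ 2 ≤ ((Nat.sqrt i + 1) ^ 2) ^ 2 := Nat.pow_le_pow_left h4 2
      _ = (Nat.sqrt i + 1) ^ 4 := by ring
  have h6 : (m + 1) * (J i + 2) + (i + 5) ≤ (m + 6) * (i + 1) ^ 2 := by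
    have h7 : J i + 2 ≤ (i + 1) ^ 2 := by nlinarith
    nlinarith [Nat.zero_le (m * J i)]
  have h7 : N * (1 + 2 * ∑ l ∈ Finset.range i, 2 ^ J l) < (m + 1) * (J i + 2) + (i + 5) := h
  have h8 : (m + 6) * (i + 1) ^ 2 ≤ N * 2 ^ Nat.sqrt i := by
    calc (m + 6) * (i + 1) ^ 2 ≤ (m + 6) * (64 * 2 ^ Nat.sqrt i) := Nat.mul_le_mul_left _ h5
      _ = 64 * (m + 6) * 2 ^ Nat.sqrt i := by ring
      _ ≤ N * 2 ^ Nat.sqrt i := Nat.mul_le_mul_right _ hN
  have h9 : N * 2 ^ Nat.sqrt i ≤ N * (1 + 2 * ∑ l ∈ Finset.range i, 2 ^ J l) :=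
    Nat.mul_le_mul_left _ (by omega)
  omega

lemma fl_imp' {m N : ℕ} {J : ℕ → ℕ} {i k : ℕ} (hN : (m + 1) * (k + 1) + (i + 5) ≤ N)
    (h : fl m N J i) : k ≤ J i := by
  by_contra hcon
  have h1 : J i + 2 ≤ k + 1 := by omega
  have h2 : (m + 1) * (J i + 2) ≤ (m + 1) * (k + 1) := Nat.mul_le_mul_left _ h1
  have h3 : N * (1 + 2 * ∑ l ∈ Finset.range i, 2 ^ J l) < (m + 1) * (J i + 2) + (i + 5) := h
  have h4 : N * 1 ≤ N * (1 + 2 * ∑ l ∈ Finset.range i, 2 ^ J l) :=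
    Nat.mul_le_mul_left _ (by omega)
  omega

/-- The bound for the probability to fail at distance `i`. -/
noncomputable def tt (i : ℕ) : ENNReal := ENNReal.ofReal (194 / ((i : ℝ) + 1) ^ 2)

lemma tsum_tt : ∑' i, tt i ≠ ⊤ := by
  have h1 : Summable fun i : ℕ => (194 : ℝ) / ((i : ℝ) + 1) ^ 2 := by
    have h2 : Summable fun i : ℕ => 1 / ((i : ℝ) + 1) ^ 2 := by
      have h3 := (summable_nat_add_iff 1).2 (Real.summable_one_div_nat_pow.2 one_lt_two)
      refine h3.congr fun i => ?_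
      push_cast
      rfl
    refine (h2.mul_left 194).congr fun i => ?_
    ring
  exact h1.tsum_ofReal_ne_top

/-- A numerical bound. -/
lemma num_bound (i : ℕ) : 1 / ((i : ℝ) ^ 2 + 1) + (1 - 1 / ((Nat.sqrt i : ℝ) + 1)) ^ i ≤
    194 / ((i : ℝ) + 1) ^ 2 := by
  set r := Nat.sqrt i with hr
  have hi0 : (0 : ℝ) ≤ i := Nat.cast_nonneg i
  have hr0 : (0 : ℝ) ≤ r := Nat.cast_nonneg r
  have h1 : (r : ℝ) ^ 2 ≤ i := by
    have := Nat.sqrt_le' i
    exact_mod_cast this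
  have h2 : (i : ℝ) + 1 ≤ ((r : ℝ) + 1) ^ 2 := by
    have : i + 1 ≤ (r + 1) ^ 2 := Nat.lt_succ_sqrt' i
    exact_mod_cast this
  have h3 : 1 / ((i : ℝ) ^ 2 + 1) ≤ 2 / ((i : ℝ) + 1) ^ 2 := by
    rw [div_le_div_iff₀ (by positivity) (by positivity)]
    nlinarith [sq_nonneg ((i : ℝ) - 1)]
  have h4 : (1 - 1 / ((r : ℝ) + 1)) ≤ Real.exp (-(1 / ((r : ℝ) + 1))) := by
    have := Real.add_one_le_exp (-(1 / ((r : ℝ) + 1)))
    linarith
  have h5 : 0 ≤ 1 - 1 / ((r : ℝ) + 1) := by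
    rw [sub_nonneg, div_le_one (by positivity)]
    linarith
  have h6 : (1 - 1 / ((r : ℝ) + 1)) ^ i ≤ Real.exp (-((r : ℝ) + 1) + 2) := by
    calc (1 - 1 / ((r : ℝ) + 1)) ^ i ≤ Real.exp (-(1 / ((r : ℝ) + 1))) ^ i :=
          pow_le_pow_left₀ h5 h4 i
      _ = Real.exp (i * (-(1 / ((r : ℝ) + 1)))) := (Real.exp_nat_mul _ _).symm
      _ ≤ Real.exp (-((r : ℝ) + 1) + 2) := by
          apply Real.exp_le_exp.2
          have h7 : (r : ℝ) - 1 ≤ i * (1 / ((r : ℝ) + 1)) := by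
            rw [mul_one_div, le_div_iff₀ (by positivity)]
            nlinarith
          linarith
  have h7 : Real.exp 2 ≤ 8 := by
    have h8 : Real.exp 2 = Real.exp 1 ^ 2 := by
      rw [← Real.exp_nat_mul]; norm_num
    have h9 := Real.exp_one_lt_d9
    have h10 := Real.exp_pos 1
    rw [h8]
    nlinarith
  have h8 : Real.exp (-((r : ℝ) + 1)) ≤ 24 / ((r : ℝ) + 1) ^ 4 := by
    have h9 := Real.pow_div_factorial_le_exp ((r : ℝ) + 1) (by positivity) 4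
    rw [Real.exp_neg, ← one_div, div_le_div_iff₀ (Real.exp_pos _) (by positivity)]
    have h10 : ((4).factorial : ℝ) = 24 := by norm_num [Nat.factorial]
    rw [h10] at h9
    linarith [(div_le_iff₀ (by norm_num : (0 : ℝ) < 24)).1 h9]
  have h9 : Real.exp (-((r : ℝ) + 1) + 2) ≤ 192 / ((r : ℝ) + 1) ^ 4 := by
    rw [Real.exp_add]
    calc Real.exp (-((r : ℝ) + 1)) * Real.exp 2 ≤ 24 / ((r : ℝ) + 1) ^ 4 * 8 := by gcongr
      _ = 192 / ((r : ℝ) + 1) ^ 4 := by ring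
  have h10 : 192 / ((r : ℝ) + 1) ^ 4 ≤ 192 / ((i : ℝ) + 1) ^ 2 := by
    have h11 : ((i : ℝ) + 1) ^ 2 ≤ ((r : ℝ) + 1) ^ 4 := by
      calc ((i : ℝ) + 1) ^ 2 ≤ (((r : ℝ) + 1) ^ 2) ^ 2 := by gcongr
        _ = ((r : ℝ) + 1) ^ 4 := by ring
    gcongr
  calc 1 / ((i : ℝ) ^ 2 + 1) + (1 - 1 / ((r : ℝ) + 1)) ^ i
      ≤ 2 / ((i : ℝ) + 1) ^ 2 + 192 / ((i : ℝ) + 1) ^ 2 :=
        add_le_add h3 (h6.trans (h9.trans h10))
    _ = 194 / ((i : ℝ) + 1) ^ 2 := by ring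

variable {Ξ : Type*} [MeasurableSpace Ξ] {ν : Measure Ξ} [IsProbabilityMeasure ν]

/-- The logarithms of the sizes. -/
structure Env (ν : Measure Ξ) (K : ℤ → Ξ → ℕ) : Prop where
  meas : ∀ n, Measurable (K n)
  ind : iIndepFun K ν
  law : ∀ n k, ν {a | k ≤ K n a} = ENNReal.ofReal (1 / ((k : ℝ) + 1))

namespace Env

variable {K : ℤ → Ξ → ℕ} (E : Env ν K) {m N : ℕ}

include E in
omit [IsProbabilityMeasure ν] in
lemma rev : Env ν fun n => K (-n) where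
  meas _ := E.meas _
  ind := E.ind.precomp neg_injective
  law _ k := E.law _ k

include E in
lemma lt_law (n : ℤ) (k : ℕ) : ν {a | K n a < k} = ENNReal.ofReal (1 - 1 / ((k : ℝ) + 1)) := by
  have h1 : {a | K n a < k} = {a | k ≤ K n a}ᶜ := by
    ext a
    simp
  have h2 : MeasurableSet {a | k ≤ K n a} := E.meas n (measurableSet_Ici)
  rw [h1, prob_compl_eq_one_sub h2, E.law, ENNReal.ofReal_sub _ (by positivity),
    ENNReal.ofReal_one]

include E in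
/-- The probability to fail at distance `i`. -/
lemma fl_le (hN : 64 * (m + 6) ≤ N) {g : ℕ → ℤ} (hg : Function.Injective g) (i : ℕ) :
    ν {a | fl m N (fun l => K (g l) a) i} ≤ tt i := by
  have hind : iIndepFun (fun l => K (g l)) ν := E.ind.precomp hg
  have h1 : {a | fl m N (fun l => K (g l) a) i} ⊆
      {a | i ^ 2 ≤ K (g i) a} ∪ ⋂ l ∈ Finset.range i, K (g l) ⁻¹' {k | k < Nat.sqrt i} := by
    intro a ha
    rcases fl_imp hN ha with h | h
    · exact Or.inl h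
    · right
      simp only [Set.mem_iInter, Finset.mem_range]
      exact h
  refine (measure_mono h1).trans ((measure_union_le _ _).trans ?_)
  rw [E.law, hind.measure_inter_preimage_eq_mul (Finset.range i)
    (fun _ _ => MeasurableSet.of_discrete)]
  have h2 : ∀ l ∈ Finset.range i, ν (K (g l) ⁻¹' {k | k < Nat.sqrt i}) =
      ENNReal.ofReal (1 - 1 / ((Nat.sqrt i : ℝ) + 1)) := fun l _ => E.lt_law _ _
  have h5 : 0 ≤ 1 - 1 / ((Nat.sqrt i : ℝ) + 1) := by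
    rw [sub_nonneg, div_le_one (by positivity)]
    have : (0 : ℝ) ≤ Nat.sqrt i := Nat.cast_nonneg _
    linarith
  rw [Finset.prod_congr rfl h2, Finset.prod_const, Finset.card_range, ← ENNReal.ofReal_pow h5,
    ← ENNReal.ofReal_add (by positivity) (by positivity), tt]
  apply ENNReal.ofReal_le_ofReal
  have := num_bound i
  push_cast
  exact this

include E in
lemma fl_tail (hN : 64 * (m + 6) ≤ N) {g : ℕ → ℤ} (hg : Function.Injective g) (ℓ : ℕ) :
    ν {a | ∃ i ≥ ℓ, fl m N (fun l => K (g l) a) i} ≤ ∑' k, tt (k + ℓ) := by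
  have h1 : {a | ∃ i ≥ ℓ, fl m N (fun l => K (g l) a) i} ⊆
      ⋃ k : ℕ, {a | fl m N (fun l => K (g l) a) (k + ℓ)} := by
    rintro a ⟨i, hi, h⟩
    refine Set.mem_iUnion.2 ⟨i - ℓ, ?_⟩
    change fl m N (fun l => K (g l) a) (i - ℓ + ℓ)
    rwa [Nat.sub_add_cancel hi]
  exact (measure_mono h1).trans ((measure_iUnion_le _).trans
    (ENNReal.tsum_le_tsum fun k => E.fl_le hN hg _))

end Env

/-- The choice of the constant. -/
lemma exists_N (m : ℕ) : ∃ N : ℕ, 64 * (m + 6) ≤ N ∧ ∀ {Ξ : Type*} [MeasurableSpace Ξ]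
    {ν : Measure Ξ} [IsProbabilityMeasure ν] {K : ℤ → Ξ → ℕ}, Env ν K →
    ∀ {g : ℕ → ℤ}, Function.Injective g →
      ν {a | ∃ i, fl m N (fun l => K (g l) a) i} ≤ ENNReal.ofReal (1 / 16) := by
  obtain ⟨J, hJ⟩ : ∃ J : ℕ, ∑' k, tt (k + J) ≤ ENNReal.ofReal (1 / 32) := by
    have h1 := ENNReal.tendsto_sum_nat_add tt tsum_tt
    have h2 := h1.eventually_le_const (u := ENNReal.ofReal (1 / 32)) (by
      rw [ENNReal.ofReal_pos]; norm_num)
    exact h2.exists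
  refine ⟨max (64 * (m + 6)) ((m + 1) * (32 * J + 1) + (J + 5)), le_max_left _ _, ?_⟩
  intro Ξ _ ν _ K E g hg
  set N := max (64 * (m + 6)) ((m + 1) * (32 * J + 1) + (J + 5)) with hN
  have h1 : {a | ∃ i, fl m N (fun l => K (g l) a) i} ⊆
      (⋃ i ∈ Finset.range J, {a | 32 * J ≤ K (g i) a}) ∪
        {a | ∃ i ≥ J, fl m N (fun l => K (g l) a) i} := by
    rintro a ⟨i, hi⟩
    rcases Nat.lt_or_ge i J with h | h
    · left
      refine Set.mem_iUnion₂.2 ⟨i, Finset.mem_range.2 h, ?_⟩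
      exact fl_imp' (le_trans (by omega) (le_max_right (64 * (m + 6)) _)) hi
    · exact Or.inr ⟨i, h, hi⟩
  refine (measure_mono h1).trans ((measure_union_le _ _).trans ?_)
  have h2 : ν (⋃ i ∈ Finset.range J, {a | 32 * J ≤ K (g i) a}) ≤ ENNReal.ofReal (1 / 32) := by
    refine (measure_biUnion_finset_le _ _).trans ?_
    rw [Finset.sum_congr rfl fun i _ => E.law (g i) (32 * J), Finset.sum_const, Finset.card_range,
      nsmul_eq_mul, ← ENNReal.ofReal_natCast, ← ENNReal.ofReal_mul (Nat.cast_nonneg _)]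
    apply ENNReal.ofReal_le_ofReal
    rw [mul_one_div, div_le_div_iff₀ (by positivity) (by norm_num)]
    push_cast
    linarith
  refine (add_le_add h2 ((E.fl_tail (le_max_left _ _) hg J).trans hJ)).trans ?_
  rw [← ENNReal.ofReal_add (by norm_num) (by norm_num)]
  apply ENNReal.ofReal_le_ofReal
  norm_num

end Pool.Agent.X297.PB
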