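import Pool.Agent.X297.PB.Main

/-!
# The law of the sizes and the main theorem
-/

open MeasureTheory ProbabilityTheory Filter

universe u

namespace Pool.Agent.X297.PB

/-- The weights `1 / ((k + 1) (k + 2))`. -/
noncomputable def wt (k : ℕ) : ℝ := 1 / (((k : ℝ) + 1) * (k + 2))

lemma wt_nonneg (k : ℕ) : 0 ≤ wt k := by
  rw [wt]
  positivity

/-- The law of the sizes: the size is `2 ^ k` with probability `1 / ((k + 1) (k + 2))`. -/
noncomputable def law : Measure ℕ :=
  Measure.sum fun k : ℕ => ENNReal.ofReal (wt k) • Measure.dirac (2 ^ k)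

lemma law_apply (s : Set ℕ) :
    law s = ∑' k : ℕ, ENNReal.ofReal (wt k) * Set.indicator s 1 (2 ^ k) := by
  rw [law, Measure.sum_apply _ MeasurableSet.of_discrete]
  refine tsum_congr fun k => ?_
  rw [Measure.smul_apply, smul_eq_mul, Measure.dirac_apply]

lemma tail_sum (k n : ℕ) : ∑ j ∈ Finset.range n, (if k ≤ j then wt j else 0) =
    1 / ((k : ℝ) + 1) - 1 / ((max n k : ℕ) + 1 : ℝ) := by
  induction n with
  | zero => simp
  | succ n ih =>
    rw [Finset.sum_range_succ, ih]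
    by_cases h : k ≤ n
    · rw [if_pos h, max_eq_left h, max_eq_left (by omega), wt]
      have h1 : (0 : ℝ) < (n : ℝ) + 1 := by positivity
      have h2 : (0 : ℝ) < (k : ℝ) + 1 := by positivity
      push_cast
      field_simp
      ring
    · rw [if_neg h, max_eq_right (by omega), max_eq_right (by omega), add_zero]

lemma hasSum_tail (k : ℕ) : HasSum (fun j => if k ≤ j then wt j else 0) (1 / ((k : ℝ) + 1)) := by
  rw [hasSum_iff_tendsto_nat_of_nonneg (fun j => by
    by_cases h : k ≤ j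
    · rw [if_pos h]; exact wt_nonneg j
    · rw [if_neg h])]
  simp only [tail_sum]
  have h1 : Tendsto (fun n : ℕ => 1 / ((max n k : ℕ) + 1 : ℝ)) atTop (nhds 0) := by
    have h2 : Tendsto (fun n : ℕ => 1 / ((n : ℝ) + 1)) atTop (nhds 0) :=
      tendsto_one_div_add_atTop_nhds_zero_nat
    refine h2.congr' ?_
    filter_upwards [eventually_ge_atTop k] with n hn
    rw [max_eq_left hn]
  simpa using tendsto_const_nhds.sub h1

lemma law_log (k : ℕ) : law {x | k ≤ Nat.log 2 x} = ENNReal.ofReal (1 / ((k : ℝ) + 1)) := by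
  rw [law_apply, ← (hasSum_tail k).tsum_eq, ENNReal.ofReal_tsum_of_nonneg (fun j => by
    by_cases h : k ≤ j
    · rw [if_pos h]; exact wt_nonneg j
    · rw [if_neg h]) (hasSum_tail k).summable]
  refine tsum_congr fun j => ?_
  by_cases h : k ≤ j
  · rw [if_pos h, Set.indicator_of_mem, Pi.one_apply, mul_one]
    change k ≤ Nat.log 2 (2 ^ j)
    rwa [Nat.log_pow (by norm_num)]
  · rw [if_neg h, Set.indicator_of_notMem, mul_zero, ENNReal.ofReal_zero]
    change ¬ k ≤ Nat.log 2 (2 ^ j)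
    rwa [Nat.log_pow (by norm_num)]

instance : IsProbabilityMeasure law := by
  constructor
  have h := law_log 0
  have h1 : {x : ℕ | 0 ≤ Nat.log 2 x} = Set.univ := by ext; simp
  rw [h1] at h
  rw [h]
  simp

lemma law_zero : law {0} = 0 := by
  rw [law_apply]
  simp

lemma law_pow : law {x | x ≠ 2 ^ Nat.log 2 x} = 0 := by
  rw [law_apply]
  have h : ∀ k : ℕ, ENNReal.ofReal (wt k) *
      Set.indicator {x : ℕ | x ≠ 2 ^ Nat.log 2 x} 1 (2 ^ k) = 0 := by
    intro k
    rw [Set.indicator_of_notMem, mul_zero]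
    rw [Set.mem_ofPred_eq, not_not, Nat.log_pow (by norm_num)]
  rw [tsum_congr h]
  simp

/-- The logarithm is not integrable. -/
lemma law_lintegral : ∫⁻ x, ENNReal.ofReal (Real.log x) ∂law = ⊤ := by
  rw [law, lintegral_sum_measure]
  by_contra hcon
  have h1 : ∀ k : ℕ, ∫⁻ x : ℕ, ENNReal.ofReal (Real.log x)
      ∂(ENNReal.ofReal (wt k) • Measure.dirac (2 ^ k)) =
      ENNReal.ofReal (wt k * (k * Real.log 2)) := by
    intro k
    rw [lintegral_smul_measure, lintegral_dirac, smul_eq_mul, ← ENNReal.ofReal_mul (wt_nonneg k)]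
    push_cast
    rw [Real.log_pow]
  simp only [h1] at hcon
  have h2 := ENNReal.summable_toReal hcon
  have h3 : Summable fun k : ℕ => wt k * (k * Real.log 2) := by
    refine h2.congr fun k => ENNReal.toReal_ofReal ?_
    have := wt_nonneg k
    have := Real.log_nonneg (one_le_two)
    positivity
  have h4 : Summable fun k : ℕ => 1 / (k : ℝ) := by
    refine Summable.of_nonneg_of_le (fun k => by positivity) (fun k => ?_)
      (h3.mul_left (6 / Real.log 2))
    have hlog : 0 < Real.log 2 := Real.log_pos one_lt_two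
    rcases Nat.eq_zero_or_pos k with rfl | hk
    · simp
    · have hk1 : (1 : ℝ) ≤ k := by exact_mod_cast hk
      rw [wt]
      have h5 : 6 / Real.log 2 * (1 / (((k : ℝ) + 1) * (k + 2)) * (k * Real.log 2)) =
          6 * k / ((k + 1) * (k + 2)) := by
        field_simp
      rw [h5, div_le_div_iff₀ (by positivity) (by positivity)]
      nlinarith
  exact Real.not_summable_one_div_natCast h4

/-- **The disproof.** -/
theorem main (m : ℕ) : IsProbabilityMeasure law ∧ law {0} = 0 ∧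
    ∫⁻ x, ENNReal.ofReal (Real.log x) ∂law = ⊤ ∧ ∃ p₀ : ℝ, 0 < p₀ ∧ p₀ < pc m ∧
    ∀ (Ξ : Type u) [MeasurableSpace Ξ] (ν : Measure Ξ) [IsProbabilityMeasure ν]
      (X : ℤ → Ξ → ℕ), (∀ n, Measurable (X n)) → iIndepFun X ν → (∀ n, ν.map (X n) = law) →
      ∀ᵐ a ∂ν, ∀ p q : ℝ, 0 ≤ p → p ≤ p₀ → 0 ≤ q → q < 1 →
        theta m (fun n => X n a) p q = 0 := by
  refine ⟨inferInstance, law_zero, law_lintegral, ?_⟩
  obtain ⟨N, hN0, hN⟩ := exists_N.{u} m
  have hm : (0 : ℝ) ≤ m := Nat.cast_nonneg m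
  set p₀ : ℝ := 2⁻¹ ^ N / (2 * (m + 1)) with hp₀
  have hpow : (2⁻¹ : ℝ) ^ N < 1 := pow_lt_one₀ (by norm_num) (by norm_num) (by omega)
  refine ⟨p₀, by positivity, ?_, ?_⟩
  · refine lt_of_lt_of_le ?_ (le_pc (m := m))
    rw [hp₀]
    gcongr
  intro Ξ _ ν _ X hmeas hind hlaw
  have hlog : Measurable (Nat.log 2) := measurable_from_top
  have E : Env ν fun n a => Nat.log 2 (X n a) :=
    { meas := fun n => hlog.comp (hmeas n)
      ind := hind.comp (fun _ => Nat.log 2) fun _ => hlog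
      law := fun n k => by
        rw [← law_log k, ← hlaw n, Measure.map_apply (hmeas n) MeasurableSet.of_discrete]
        rfl }
  have h1 := E.ae_good hN0 (fun E g hg => hN E hg)
  have h2 : ∀ᵐ a ∂ν, ∀ n, X n a = 2 ^ Nat.log 2 (X n a) := by
    rw [ae_all_iff]
    intro n
    rw [ae_iff]
    have h3 := law_pow
    rw [← hlaw n, Measure.map_apply (hmeas n) MeasurableSet.of_discrete] at h3
    exact h3
  filter_upwards [h1, h2] with a ha1 ha2 p q hp hp1 hq hq1
  have hX : ∀ n, 1 ≤ X n a := by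
    intro n
    rw [ha2 n]
    exact Nat.one_le_two_pow
  have hε0 : 2 * (m + 1) * p ≤ 2⁻¹ ^ N := by
    rw [hp₀, le_div_iff₀ (by positivity)] at hp1
    linarith
  have hε : ENNReal.ofReal (2 * (m + 1) * p) ≤ 2⁻¹ ^ N := by
    refine (ENNReal.ofReal_le_ofReal hε0).trans (le_of_eq ?_)
    rw [ENNReal.ofReal_pow (by norm_num), ENNReal.ofReal_inv_of_pos (by norm_num),
      ENNReal.ofReal_ofNat]
  have hthree : (3 ^ (m + 1) : ENNReal) * ENNReal.ofReal (2 * (m + 1) * p) ≤ 2⁻¹ ^ 4 := by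
    have h5 : (3 : ENNReal) ^ (m + 1) ≤ 2 ^ (2 * (m + 1)) := by
      rw [pow_mul]
      exact pow_le_pow_left₀ zero_le (by norm_num) _
    calc (3 ^ (m + 1) : ENNReal) * ENNReal.ofReal (2 * (m + 1) * p)
        ≤ 2 ^ (2 * (m + 1)) * 2⁻¹ ^ N := mul_le_mul' h5 hε
      _ ≤ 2 ^ (2 * (m + 1)) * (2⁻¹ ^ (2 * (m + 1)) * 2⁻¹ ^ 4) := by
          rw [← pow_add]
          gcongr 2 ^ (2 * (m + 1)) * ?_
          exact pow_le_pow_of_le_one zero_le (ENNReal.inv_le_one.2 one_le_two) (by omega)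
      _ = 2⁻¹ ^ 4 := by
          rw [← mul_assoc, ← mul_pow, ENNReal.mul_inv_cancel (by norm_num) (by norm_num), one_pow,
            one_mul]
  have h3 := quenched (m := m) hX hp (by linarith) hthree hq hq1
    (fun M => by
      obtain ⟨n, hn, h4⟩ := (ha1 M).1
      exact ⟨n, hn, good_of_wg ha2 hε h4⟩)
    (fun M => by
      obtain ⟨n, hn, h4⟩ := (ha1 M).2
      exact ⟨n, hn, good_of_wg ha2 hε h4⟩)
  rw [theta]
  have hsub : {ω : Config m | (cluster ω 0).Infinite} ⊆ perco m := fun ω hω => ⟨0, hω⟩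
  exact measure_mono_null hsub h3

end Pool.Agent.X297.PB
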