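import Pool.Agent.X297.PB.Env

/-!
# The disproof
-/

open MeasureTheory ProbabilityTheory Filter

universe u

namespace Pool.Agent.X297.PB

variable {Ξ : Type u} [MeasurableSpace Ξ] {ν : Measure Ξ} [IsProbabilityMeasure ν]

/-- Dependence on finitely many coordinates. -/
def Dep (S : Finset ℤ) (P : (ℤ → ℕ) → Prop) : Prop :=
  ∀ κ κ' : ℤ → ℕ, (∀ j ∈ S, κ j = κ' j) → (P κ ↔ P κ')

/-- The extension by zero. -/
noncomputable def ext0 (S : Finset ℤ) (f : S → ℕ) (j : ℤ) : ℕ :=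
  open Classical in if h : j ∈ S then f ⟨j, h⟩ else 0

omit [MeasurableSpace Ξ] in
lemma dep_preimage {K : ℤ → Ξ → ℕ} {S : Finset ℤ} {P : (ℤ → ℕ) → Prop} (h : Dep S P) :
    {a | P fun j => K j a} = (fun a (i : S) => K i a) ⁻¹' {f | P (ext0 S f)} := by
  classical
  ext a
  refine h _ _ fun j hj => ?_
  rw [ext0, dif_pos hj]

namespace Env

variable {K : ℤ → Ξ → ℕ} (E : Env ν K) {m N : ℕ}

include E in
omit [IsProbabilityMeasure ν] in
lemma meas_dep {S : Finset ℤ} {P : (ℤ → ℕ) → Prop} (h : Dep S P) :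
    MeasurableSet {a | P fun j => K j a} := by
  rw [dep_preimage h]
  have h1 : Measurable (fun a (i : S) => K i a) := measurable_pi_lambda _ fun i => E.meas i
  exact h1 MeasurableSet.of_discrete

include E in
omit [IsProbabilityMeasure ν] in
lemma indep_dep {S T : Finset ℤ} (hST : Disjoint S T) {P Q : (ℤ → ℕ) → Prop} (hP : Dep S P)
    (hQ : Dep T Q) : ν {a | P (fun j => K j a) ∧ Q fun j => K j a} =
      ν {a | P fun j => K j a} * ν {a | Q fun j => K j a} := by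
  have h1 := E.ind.indepFun_finset S T hST E.meas
  have h2 : {a | P (fun j => K j a) ∧ Q fun j => K j a} =
      {a | P fun j => K j a} ∩ {a | Q fun j => K j a} := rfl
  rw [h2, dep_preimage hP, dep_preimage hQ]
  exact h1.measure_inter_preimage_eq_mul _ _ MeasurableSet.of_discrete MeasurableSet.of_discrete

lemma inj_right (n : ℤ) : Function.Injective fun l : ℕ => n + 1 + (l : ℤ) := by
  intro a b h
  simp only at h
  omega

lemma inj_left (n : ℤ) : Function.Injective fun l : ℕ => n - 1 - (l : ℤ) := by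
  intro a b h
  simp only at h
  omega

include E in
omit [IsProbabilityMeasure ν] in
/-- The probability that a window is not good. -/
lemma not_wg_le (hN : ∀ {g : ℕ → ℤ}, Function.Injective g →
      ν {a | ∃ i, fl m N (fun l => K (g l) a) i} ≤ ENNReal.ofReal (1 / 16)) (n : ℤ) (ℓ : ℕ) :
    ν {a | ¬ wg m N (fun j => K j a) n ℓ} ≤ ENNReal.ofReal (5 / 8) := by
  have h1 : {a | ¬ wg m N (fun j => K j a) n ℓ} ⊆ {a | 1 ≤ K n a} ∪
      ({a | ∃ i, fl m N (fun l => K (n + 1 + l) a) i} ∪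
        {a | ∃ i, fl m N (fun l => K (n - 1 - l) a) i}) := by
    intro a ha
    by_contra hcon
    apply ha
    refine ⟨?_, fun i _ => ⟨fun h => ?_, fun h => ?_⟩⟩
    · by_contra h
      exact hcon (Or.inl (Nat.one_le_iff_ne_zero.2 h))
    · exact hcon (Or.inr (Or.inl ⟨i, h⟩))
    · exact hcon (Or.inr (Or.inr ⟨i, h⟩))
  refine (measure_mono h1).trans ((measure_union_le _ _).trans ?_)
  refine (add_le_add (E.law n 1).le ((measure_union_le _ _).trans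
    (add_le_add (hN (inj_right n)) (hN (inj_left n))))).trans ?_
  rw [← ENNReal.ofReal_add (by norm_num) (by norm_num),
    ← ENNReal.ofReal_add (by positivity) (by norm_num)]
  apply ENNReal.ofReal_le_ofReal
  norm_num

/-- The centres of the windows. -/
def ctr (M : ℤ) (ℓ t : ℕ) : ℤ := M + 1 + ℓ + t * (2 * ℓ + 1)

lemma dep_wg (n : ℤ) (ℓ : ℕ) {S : Finset ℤ} (hS : Finset.Icc (n - ℓ) (n + ℓ) ⊆ S) :
    Dep S fun κ => ¬ wg m N κ n ℓ :=
  fun _ _ h => not_congr (wg_congr fun j hj => h j (hS hj))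

include E in
/-- Many windows. -/
lemma windows_le (hN : ∀ {g : ℕ → ℤ}, Function.Injective g →
      ν {a | ∃ i, fl m N (fun l => K (g l) a) i} ≤ ENNReal.ofReal (1 / 16)) (M : ℤ) (ℓ T : ℕ) :
    ν {a | ∀ t < T, ¬ wg m N (fun j => K j a) (ctr M ℓ t) ℓ} ≤ ENNReal.ofReal (5 / 8) ^ T := by
  induction T with
  | zero =>
    rw [pow_zero]
    exact prob_le_one
  | succ T ih =>
    have h1 : {a | ∀ t < T + 1, ¬ wg m N (fun j => K j a) (ctr M ℓ t) ℓ} =
        {a | (∀ t < T, ¬ wg m N (fun j => K j a) (ctr M ℓ t) ℓ) ∧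
          ¬ wg m N (fun j => K j a) (ctr M ℓ T) ℓ} := by
      ext a
      constructor
      · intro h
        exact ⟨fun t ht => h t (by omega), h T (by omega)⟩
      · rintro ⟨h2, h3⟩ t ht
        rcases Nat.lt_succ_iff_lt_or_eq.1 ht with h4 | rfl
        · exact h2 t h4
        · exact h3
    rw [h1, E.indep_dep (S := Finset.Icc (M + 1) (M + T * (2 * ℓ + 1)))
      (T := Finset.Icc (ctr M ℓ T - ℓ) (ctr M ℓ T + ℓ))
      (P := fun κ => ∀ t < T, ¬ wg m N κ (ctr M ℓ t) ℓ)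
      (Q := fun κ => ¬ wg m N κ (ctr M ℓ T) ℓ), pow_succ]
    · gcongr
      exact E.not_wg_le hN _ _
    · rw [Finset.disjoint_left]
      intro j hj hj'
      rw [Finset.mem_Icc] at hj hj'
      rw [ctr] at hj'
      omega
    · intro κ κ' h
      refine forall₂_congr fun t ht => dep_wg _ _ ?_ κ κ' h
      intro j hj
      rw [Finset.mem_Icc] at hj ⊢
      rw [ctr] at hj
      have h5 : ((t : ℤ) + 1) * (2 * ℓ + 1) ≤ T * (2 * ℓ + 1) := by
        have : (t : ℤ) + 1 ≤ T := by exact_mod_cast ht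
        gcongr
      have h6 : (0 : ℤ) ≤ t * (2 * ℓ + 1) := by positivity
      constructor <;> linarith
    · exact dep_wg _ _ (Finset.Subset.refl _)

include E in
/-- There are good bottlenecks to the right. -/
lemma right_null (hN0 : 64 * (m + 6) ≤ N) (hN : ∀ {g : ℕ → ℤ}, Function.Injective g →
      ν {a | ∃ i, fl m N (fun l => K (g l) a) i} ≤ ENNReal.ofReal (1 / 16)) (M : ℤ) :
    ν {a | ∀ n > M, ∃ ℓ, ¬ wg m N (fun j => K j a) n ℓ} = 0 := by
  set A := {a | ∀ n > M, ∃ ℓ, ¬ wg m N (fun j => K j a) n ℓ} with hA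
  have h1 : ∀ T ℓ : ℕ, ν A ≤ ENNReal.ofReal (5 / 8) ^ T +
      T * ((∑' k, tt (k + ℓ)) + ∑' k, tt (k + ℓ)) := by
    intro T ℓ
    have h2 : A ⊆ {a | ∀ t < T, ¬ wg m N (fun j => K j a) (ctr M ℓ t) ℓ} ∪
        ⋃ t ∈ Finset.range T, ({a | ∃ i ≥ ℓ, fl m N (fun l => K (ctr M ℓ t + 1 + l) a) i} ∪
          {a | ∃ i ≥ ℓ, fl m N (fun l => K (ctr M ℓ t - 1 - l) a) i}) := by
      intro a ha
      by_contra hcon
      have h3 : ∃ t < T, wg m N (fun j => K j a) (ctr M ℓ t) ℓ := by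
        by_contra h4
        push Not at h4
        exact hcon (Or.inl h4)
      obtain ⟨t, ht, hw⟩ := h3
      obtain ⟨ℓ', hℓ'⟩ := ha (ctr M ℓ t) (by
        rw [ctr]
        have h6 : (0 : ℤ) ≤ t * (2 * ℓ + 1) := by positivity
        have h7 : (0 : ℤ) ≤ ℓ := by positivity
        linarith)
      apply hℓ'
      refine ⟨hw.1, fun i _ => ?_⟩
      rcases Nat.lt_or_ge i ℓ with h5 | h5
      · exact hw.2 i h5
      · refine ⟨fun h6 => hcon (Or.inr ?_), fun h6 => hcon (Or.inr ?_)⟩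
        · exact Set.mem_iUnion₂.2 ⟨t, Finset.mem_range.2 ht, Or.inl ⟨i, h5, h6⟩⟩
        · exact Set.mem_iUnion₂.2 ⟨t, Finset.mem_range.2 ht, Or.inr ⟨i, h5, h6⟩⟩
    refine (measure_mono h2).trans ((measure_union_le _ _).trans ?_)
    refine add_le_add (E.windows_le hN M ℓ T) ?_
    refine (measure_biUnion_finset_le _ _).trans ?_
    have h3 : ∀ t ∈ Finset.range T,
        ν ({a | ∃ i ≥ ℓ, fl m N (fun l => K (ctr M ℓ t + 1 + l) a) i} ∪
          {a | ∃ i ≥ ℓ, fl m N (fun l => K (ctr M ℓ t - 1 - l) a) i}) ≤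
        (∑' k, tt (k + ℓ)) + ∑' k, tt (k + ℓ) := fun t _ =>
      (measure_union_le _ _).trans (add_le_add (E.fl_tail hN0 (inj_right _) ℓ)
        (E.fl_tail hN0 (inj_left _) ℓ))
    refine (Finset.sum_le_sum h3).trans ?_
    rw [Finset.sum_const, Finset.card_range, nsmul_eq_mul]
  have h2 : ∀ T : ℕ, ν A ≤ ENNReal.ofReal (5 / 8) ^ T := by
    intro T
    have h3 := ENNReal.tendsto_sum_nat_add tt tsum_tt
    have h4 : Tendsto (fun ℓ : ℕ => ENNReal.ofReal (5 / 8) ^ T +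
        (T : ENNReal) * ((∑' k, tt (k + ℓ)) + ∑' k, tt (k + ℓ))) atTop
        (nhds (ENNReal.ofReal (5 / 8) ^ T + (T : ENNReal) * (0 + 0))) :=
      tendsto_const_nhds.add (ENNReal.Tendsto.const_mul (h3.add h3)
        (Or.inr (ENNReal.natCast_ne_top T)))
    rw [add_zero, mul_zero, add_zero] at h4
    exact ge_of_tendsto' h4 (h1 T)
  have h3 : Tendsto (fun T : ℕ => ENNReal.ofReal (5 / 8) ^ T) atTop (nhds 0) := by
    apply ENNReal.tendsto_pow_atTop_nhds_zero_of_lt_one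
    rw [← ENNReal.ofReal_one]
    exact (ENNReal.ofReal_lt_ofReal_iff zero_lt_one).2 (by norm_num)
  exact le_antisymm (ge_of_tendsto' h3 h2) zero_le

end Env

lemma wg_rev {m N : ℕ} {κ : ℤ → ℕ} {n : ℤ} {ℓ : ℕ} (h : wg m N (fun j => κ (-j)) n ℓ) :
    wg m N κ (-n) ℓ := by
  refine ⟨h.1, fun i hi => ⟨?_, ?_⟩⟩
  · have h1 := (h.2 i hi).2
    have h2 : ∀ l : ℕ, -(n - 1 - (l : ℤ)) = -n + 1 + l := by intro l; ring
    simp only [h2] at h1
    exact h1
  · have h1 := (h.2 i hi).1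
    have h2 : ∀ l : ℕ, -(n + 1 + (l : ℤ)) = -n - 1 - l := by intro l; ring
    simp only [h2] at h1
    exact h1

/-- Good bottlenecks in both directions. -/
theorem Env.ae_good {K : ℤ → Ξ → ℕ} (E : Env ν K) {m N : ℕ} (hN0 : 64 * (m + 6) ≤ N)
    (hN : ∀ {K : ℤ → Ξ → ℕ}, Env ν K → ∀ {g : ℕ → ℤ}, Function.Injective g →
      ν {a | ∃ i, fl m N (fun l => K (g l) a) i} ≤ ENNReal.ofReal (1 / 16)) :
    ∀ᵐ a ∂ν, ∀ M : ℕ, (∃ n : ℤ, (M : ℤ) < n ∧ ∀ ℓ, wg m N (fun j => K j a) n ℓ) ∧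
      ∃ n : ℤ, n < -(M : ℤ) ∧ ∀ ℓ, wg m N (fun j => K j a) n ℓ := by
  rw [ae_all_iff]
  intro M
  have h1 := E.right_null hN0 (hN E) M
  have h2 := E.rev.right_null hN0 (hN E.rev) M
  have h3 : ∀ᵐ a ∂ν, ¬ ∀ n > (M : ℤ), ∃ ℓ, ¬ wg m N (fun j => K j a) n ℓ := by
    rw [ae_iff]
    simpa only [not_not] using h1
  have h4 : ∀ᵐ a ∂ν, ¬ ∀ n > (M : ℤ), ∃ ℓ, ¬ wg m N (fun j => K (-j) a) n ℓ := by
    rw [ae_iff]
    simpa only [not_not] using h2
  filter_upwards [h3, h4] with a ha1 ha2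
  push Not at ha1 ha2
  obtain ⟨n, hn, h5⟩ := ha1
  obtain ⟨n', hn', h6⟩ := ha2
  exact ⟨⟨n, hn, h5⟩, -n', by omega, fun ℓ => wg_rev (κ := fun j => K j a) (h6 ℓ)⟩

lemma pow_le_aux {m N i k s : ℕ} {ε : ENNReal} (hε : ε ≤ 2⁻¹ ^ N)
    (h : (m + 1) * (k + 2) + (i + 5) ≤ N * (1 + 2 * s)) :
    (((2 * 2 ^ k + 1) ^ (m + 1) : ℕ) : ENNReal) * ε ^ (1 + 2 * s) ≤ 2⁻¹ ^ (i + 5) := by
  have h1 : (2 * 2 ^ k + 1) ^ (m + 1) ≤ 2 ^ ((m + 1) * (k + 2)) := by
    rw [mul_comm (m + 1), pow_mul]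
    apply Nat.pow_le_pow_left
    have : 1 ≤ 2 ^ k := Nat.one_le_two_pow
    rw [pow_add]
    omega
  have h2 : ε ^ (1 + 2 * s) ≤ 2⁻¹ ^ ((m + 1) * (k + 2)) * 2⁻¹ ^ (i + 5) := by
    calc ε ^ (1 + 2 * s) ≤ (2⁻¹ ^ N) ^ (1 + 2 * s) := by gcongr
      _ = 2⁻¹ ^ (N * (1 + 2 * s)) := (pow_mul _ _ _).symm
      _ ≤ 2⁻¹ ^ ((m + 1) * (k + 2) + (i + 5)) :=
          pow_le_pow_of_le_one zero_le (ENNReal.inv_le_one.2 one_le_two) h
      _ = _ := pow_add _ _ _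
  calc (((2 * 2 ^ k + 1) ^ (m + 1) : ℕ) : ENNReal) * ε ^ (1 + 2 * s)
      ≤ ((2 ^ ((m + 1) * (k + 2)) : ℕ) : ENNReal) *
        (2⁻¹ ^ ((m + 1) * (k + 2)) * 2⁻¹ ^ (i + 5)) := by gcongr
    _ = 2⁻¹ ^ (i + 5) := by
        rw [← mul_assoc, Nat.cast_pow, ← mul_pow, Nat.cast_ofNat,
          ENNReal.mul_inv_cancel (by norm_num) (by norm_num), one_pow, one_mul]

/-- From the logarithms to the sizes. -/
lemma good_of_wg {m N : ℕ} {X : ℤ → ℕ} {κ : ℤ → ℕ} (hX : ∀ n, X n = 2 ^ κ n) {ε : ENNReal}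
    (hε : ε ≤ 2⁻¹ ^ N) {n : ℤ} (h : ∀ ℓ, wg m N κ n ℓ) : Good m X ε n where
  one := by rw [hX, (h 0).1, pow_zero]
  right i := by
    have h1 := ((h (i + 1)).2 i (by omega)).1
    rw [fl, not_lt] at h1
    have h2 : sumR X n i = ∑ l ∈ Finset.range i, 2 ^ κ (n + 1 + l) :=
      Finset.sum_congr rfl fun l _ => hX _
    rw [h2, hX]
    exact pow_le_aux hε h1
  left i := by
    have h1 := ((h (i + 1)).2 i (by omega)).2
    rw [fl, not_lt] at h1
    have h2 : sumL X n i = ∑ l ∈ Finset.range i, 2 ^ κ (n - 1 - l) :=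
      Finset.sum_congr rfl fun l _ => hX _
    rw [h2, hX]
    exact pow_le_aux hε h1

end Pool.Agent.X297.PB
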