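import Pool.Agent.X297.PB.Stack

/-!
# The quenched model: infinitely many bottlenecks
-/

open MeasureTheory ProbabilityTheory Filter

namespace Pool.Agent.X297.PB

variable {m : ℕ} {X : ℤ → ℕ}

/-- Connections from a box. -/
lemma box_le {π : Edge m → ℝ} (h : ∀ e, 0 ≤ π e ∧ π e ≤ 1) (C : Finset (Edge m))
    (S : Set (Edge m)) (hCS : ∀ e ∈ C, e ∉ S) {p : ℝ} (hS : ∀ e ∈ S, π e ≤ p) (a : ℤ) (r L : ℕ) :
    perc π {ω | (∀ e ∈ C, ω e = false) ∧ ∃ v ∈ box m a r, ∃ w,
      Relation.ReflTransGen (Adj (res S ω)) v w ∧ (L : ℤ) ≤ |w.2 - v.2|} ≤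
      (∏ e ∈ C, ENNReal.ofReal (1 - π e)) *
        (((2 * r + 1) ^ (m + 1) : ℕ) * ENNReal.ofReal (2 * (m + 1) * p) ^ L) := by
  obtain ⟨F, hF1, hF2⟩ := box_card (m := m) a r
  have h1 : {ω : Config m | (∀ e ∈ C, ω e = false) ∧ ∃ v ∈ box m a r, ∃ w,
      Relation.ReflTransGen (Adj (res S ω)) v w ∧ (L : ℤ) ≤ |w.2 - v.2|} ⊆
      ⋃ v ∈ F, {ω | (∀ e ∈ C, ω e = false) ∧
        ∃ w, Relation.ReflTransGen (Adj (res S ω)) v w ∧ (L : ℤ) ≤ |w.2 - v.2|} := by
    rintro ω ⟨h2, v, hv, h3⟩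
    exact Set.mem_iUnion₂.2 ⟨v, hF1 v hv, h2, h3⟩
  refine (measure_mono h1).trans ((measure_biUnion_finset_le _ _).trans ?_)
  refine (Finset.sum_le_sum fun v _ => far_le h C S hCS hS v (D := fun v w => |w.2 - v.2|)
    (by simp) (by
      rintro x y d rfl
      have h2 := abs_add_le (x.2 - v.2) (vec d).2
      have h3 := abs_snd_vec d
      have h4 : (x + vec d).2 - v.2 = x.2 - v.2 + (vec d).2 := by
        rw [Prod.snd_add]; ring
      rw [h4]
      linarith) L).trans ?_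
  rw [Finset.sum_const, hF2, nsmul_eq_mul]
  exact (mul_left_comm _ _ _).le

/-- A good bottleneck. -/
structure Good (m : ℕ) (X : ℤ → ℕ) (ε : ENNReal) (n : ℤ) : Prop where
  one : X n = 1
  right : ∀ i : ℕ, (((2 * X (n + 1 + i) + 1) ^ (m + 1) : ℕ) : ENNReal) *
    ε ^ (1 + 2 * sumR X n i) ≤ 2⁻¹ ^ (i + 5)
  left : ∀ i : ℕ, (((2 * X (n - 1 - i) + 1) ^ (m + 1) : ℕ) : ENNReal) *
    ε ^ (1 + 2 * sumL X n i) ≤ 2⁻¹ ^ (i + 5)

lemma tsum_half : ∑' i : ℕ, (2⁻¹ : ENNReal) ^ (i + 5) = 2⁻¹ ^ 4 := by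
  have h : ∀ i : ℕ, (2⁻¹ : ENNReal) ^ (i + 5) = 2⁻¹ ^ 5 * 2⁻¹ ^ i := by
    intro i
    rw [pow_add, mul_comm]
  rw [tsum_congr h, ENNReal.tsum_mul_left, ENNReal.tsum_geometric, ENNReal.one_sub_inv_two, inv_inv, pow_succ,
    mul_assoc, ENNReal.inv_mul_cancel (by norm_num) (by norm_num), mul_one]

/-- The probability of a bypass. -/
lemma byp_le {π : Edge m → ℝ} (h : ∀ e, 0 ≤ π e ∧ π e ≤ 1) (hX : ∀ n, 1 ≤ X n)
    (C : Finset (Edge m)) (hCS : ∀ e ∈ C, e ∉ nonR m X) {p : ℝ} (hS : ∀ e ∈ nonR m X, π e ≤ p)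
    (hε : (3 ^ (m + 1) : ENNReal) * ENNReal.ofReal (2 * (m + 1) * p) ≤ 2⁻¹ ^ 4) {n : ℤ}
    (hn : Good m X (ENNReal.ofReal (2 * (m + 1) * p)) n) :
    perc π ({ω | ∀ e ∈ C, ω e = false} ∩ byp m X (Z X n)) ≤
      (∏ e ∈ C, ENNReal.ofReal (1 - π e)) * (2⁻¹ ^ 4 + (2⁻¹ ^ 4 + 2⁻¹ ^ 4)) := by
  set ε := ENNReal.ofReal (2 * (m + 1) * p) with hε'
  set P := ∏ e ∈ C, ENNReal.ofReal (1 - π e) with hP
  have key : ∀ (a : ℤ) (r L : ℕ), perc π {ω | (∀ e ∈ C, ω e = false) ∧ ∃ v ∈ box m a r, ∃ w,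
      Relation.ReflTransGen (Adj (res (nonR m X) ω)) v w ∧ (L : ℤ) ≤ |w.2 - v.2|} ≤
      P * (((2 * r + 1) ^ (m + 1) : ℕ) * ε ^ L) := fun a r L => box_le h C _ hCS hS a r L
  have hsub : {ω | ∀ e ∈ C, ω e = false} ∩ byp m X (Z X n) ⊆
      {ω | (∀ e ∈ C, ω e = false) ∧ ∃ v ∈ box m (Z X n) (X n), ∃ w,
        Relation.ReflTransGen (Adj (res (nonR m X) ω)) v w ∧ ((1 : ℕ) : ℤ) ≤ |w.2 - v.2|} ∪
      ((⋃ i : ℕ, {ω | (∀ e ∈ C, ω e = false) ∧
        ∃ v ∈ box m (Z X (n + 1 + i)) (X (n + 1 + i)), ∃ w,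
        Relation.ReflTransGen (Adj (res (nonR m X) ω)) v w ∧
          ((1 + 2 * sumR X n i : ℕ) : ℤ) ≤ |w.2 - v.2|}) ∪
      (⋃ i : ℕ, {ω | (∀ e ∈ C, ω e = false) ∧
        ∃ v ∈ box m (Z X (n - 1 - i)) (X (n - 1 - i)), ∃ w,
        Relation.ReflTransGen (Adj (res (nonR m X) ω)) v w ∧
          ((1 + 2 * sumL X n i : ℕ) : ℤ) ≤ |w.2 - v.2|})) := by
    rintro ω ⟨h1, r, hr, w, h2, h3⟩
    obtain ⟨j, hj⟩ := Set.mem_iUnion.1 hr
    rcases int_cases n j with rfl | ⟨i, rfl⟩ | ⟨i, rfl⟩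
    · left
      refine ⟨h1, r, hj, w, h2, ?_⟩
      rcases h3 with h3 | h3
      · refine le_trans ?_ (le_abs_self _)
        push_cast
        omega
      · refine le_trans ?_ (neg_le_abs _)
        push_cast
        omega
    · right; left
      refine Set.mem_iUnion.2 ⟨i, h1, r, hj, w, h2, ?_⟩
      have h4 := box_right hX hj
      have h5 : (0 : ℤ) ≤ sumR X n i := by positivity
      rcases h3 with h3 | h3
      · exfalso
        linarith [h3.1]
      · refine le_trans ?_ (neg_le_abs _)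
        push_cast
        linarith [h3.2]
    · right; right
      refine Set.mem_iUnion.2 ⟨i, h1, r, hj, w, h2, ?_⟩
      have h4 := box_left hX hj
      have h5 : (0 : ℤ) ≤ sumL X n i := by positivity
      rcases h3 with h3 | h3
      · refine le_trans ?_ (le_abs_self _)
        push_cast
        linarith [h3.2]
      · exfalso
        linarith [h3.1]
  refine (measure_mono hsub).trans ((measure_union_le _ _).trans ?_)
  rw [mul_add]
  refine add_le_add ?_ ((measure_union_le _ _).trans ?_)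
  · refine (key _ _ _).trans ?_
    rw [hn.one, pow_one]
    gcongr
    refine le_trans (le_of_eq ?_) hε
    norm_num
  · rw [mul_add]
    refine add_le_add ?_ ?_
    · refine (measure_iUnion_le _).trans ((ENNReal.tsum_le_tsum fun i => key _ _ _).trans ?_)
      rw [ENNReal.tsum_mul_left, ← tsum_half]
      gcongr with i
      exact hn.right i
    · refine (measure_iUnion_le _).trans ((ENNReal.tsum_le_tsum fun i => key _ _ _).trans ?_)
      rw [ENNReal.tsum_mul_left, ← tsum_half]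
      gcongr with i
      exact hn.left i

lemma adj_all {S : Set (Edge m)} {ω : Config m} {v w : V m} (h : Adj ω v w)
    (hS : ∀ i, (v, i) ∈ S ∧ (w, i) ∈ S) : Adj (res S ω) v w := by
  obtain ⟨i, h | h⟩ := h
  · exact ⟨i, Or.inl ⟨h.1, res_true.2 ⟨h.2, (hS i).1⟩⟩⟩
  · exact ⟨i, Or.inr ⟨h.1, res_true.2 ⟨h.2, (hS i).2⟩⟩⟩

lemma reach_symm {ω : Config m} {v w : V m} (h : Relation.ReflTransGen (Adj ω) v w) :
    Relation.ReflTransGen (Adj ω) w v := by
  induction h with
  | refl => exact Relation.ReflTransGen.refl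
  | tail _ hab ih => exact Relation.ReflTransGen.head hab.symm ih

/-- **No percolation**, if there are infinitely many good bottlenecks on both sides. -/
theorem quenched (hX : ∀ n, 1 ≤ X n) {p q : ℝ} (hp : 0 ≤ p) (hp1 : 2 * (m + 1) * p < 1)
    (hε : (3 ^ (m + 1) : ENNReal) * ENNReal.ofReal (2 * (m + 1) * p) ≤ 2⁻¹ ^ 4)
    (hq : 0 ≤ q) (hq1 : q < 1)
    (hr : ∀ M : ℕ, ∃ n : ℤ, (M : ℤ) < n ∧ Good m X (ENNReal.ofReal (2 * (m + 1) * p)) n)
    (hl : ∀ M : ℕ, ∃ n : ℤ, n < -(M : ℤ) ∧ Good m X (ENNReal.ofReal (2 * (m + 1) * p)) n) :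
    perc (prob m X p q) (perco m) = 0 := by
  classical
  have hm : (0 : ℝ) ≤ m := Nat.cast_nonneg m
  have hp2 : p ≤ 1 := by nlinarith
  have h : ∀ e, 0 ≤ prob m X p q e ∧ prob m X p q e ≤ 1 := by
    intro e
    rw [prob]
    split_ifs
    · exact ⟨hq, hq1.le⟩
    · exact ⟨hp, hp2⟩
  have hS : ∀ e ∈ nonR m X, prob m X p q e ≤ p := by
    intro e he
    rw [prob, if_neg he]
  have hprob := isProb_perc h
  refine (zero_one h).resolve_right fun hone => ?_
  choose nr hnr1 hnr2 using hr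
  choose nl hnl1 hnl2 using hl
  set Nul : Set (Config m) :=
    ⋃ v, {ω | {w | Relation.ReflTransGen (Adj (res (nonR m X) ω)) v w}.Infinite} with hNul
  have hNul0 : perc (prob m X p q) Nul = 0 :=
    measure_iUnion_null fun v => null_inf h _ hS hp1 v
  set C : ℕ → Finset (Edge m) := fun M => sec m (Z X (nr M)) ∪ sec m (Z X (nl M)) with hC
  set B : ℕ → Set (Config m) := fun M => {ω | ∀ e ∈ C M, ω e = false}ᶜ ∪
    (({ω | ∀ e ∈ C M, ω e = false} ∩ byp m X (Z X (nr M))) ∪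
      ({ω | ∀ e ∈ C M, ω e = false} ∩ byp m X (Z X (nl M)))) with hB
  have hCS : ∀ M, ∀ e ∈ C M, e ∉ nonR m X := by
    intro M e he
    rcases Finset.mem_union.1 he with he | he
    · exact sec_R (hnr2 M).one he
    · exact sec_R (hnl2 M).one he
  -- the covering
  have hsub : perco m ⊆ Nul ∪ ⋃ k : ℕ, ⋂ M ≥ k, B M := by
    intro ω hω
    by_cases hnul : ω ∈ Nul
    · exact Or.inl hnul
    right
    have hfin : ∀ v, {w | Relation.ReflTransGen (Adj (res (nonR m X) ω)) v w}.Finite := by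
      intro v
      by_contra hcon
      exact hnul (Set.mem_iUnion.2 ⟨v, hcon⟩)
    obtain ⟨v, hv⟩ := hω
    obtain ⟨r, hrR, hvr⟩ : ∃ r ∈ R m X, Relation.ReflTransGen (Adj ω) v r := by
      by_contra hcon
      apply hv
      refine (hfin v).subset fun w hw => ?_
      have hw' : Relation.ReflTransGen (Adj ω) v w := hw
      induction hw' with
      | refl => exact Relation.ReflTransGen.refl
      | @tail a b hab hadj ih =>
        refine Relation.ReflTransGen.tail (ih hab) (adj_all hadj fun i => ⟨?_, ?_⟩)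
        · exact fun h1 => hcon ⟨a, h1.1, hab⟩
        · exact fun h1 => hcon ⟨b, h1.1, hab.tail hadj⟩
    refine Set.mem_iUnion.2 ⟨r.2.natAbs, Set.mem_iInter₂.2 fun M hM => ?_⟩
    by_contra hnB
    have hc : ∀ e ∈ C M, ω e = false := by
      by_contra hcon
      exact hnB (Or.inl hcon)
    have hb1 : ω ∉ byp m X (Z X (nr M)) := fun h1 => hnB (Or.inr (Or.inl ⟨hc, h1⟩))
    have hb2 : ω ∉ byp m X (Z X (nl M)) := fun h1 => hnB (Or.inr (Or.inr ⟨hc, h1⟩))
    have hslab1 : r.2 ≤ Z X (nr M) := by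
      have h1 := hnr1 M
      have h2 := Z_ge hX (n := nr M) (by omega)
      omega
    have hslab2 : ¬ r.2 ≤ Z X (nl M) := by
      have h1 := hnl1 M
      have h2 := Z_le hX (n := nl M) (by omega)
      omega
    apply hv
    have hfin2 : (⋃ j ∈ Set.Icc (nl M) (nr M), ⋃ r' ∈ box m (Z X j) (X j),
        {w | Relation.ReflTransGen (Adj (res (nonR m X) ω)) r' w}).Finite :=
      (Set.finite_Icc _ _).biUnion fun j _ => (box_finite _ _).biUnion fun r' _ => hfin r'
    refine hfin2.subset fun w hw => ?_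
    have hw' : Relation.ReflTransGen (Adj ω) r w := (reach_symm hvr).trans hw
    obtain ⟨r', hr', h1, h2⟩ := blocked hX (T := {nr M, nl M}) (by
      rintro n (rfl | rfl)
      · exact (hnr2 M).one
      · exact (hnl2 M).one) (by
      rintro n (rfl | rfl) e he
      · exact hc e (Finset.mem_union_left _ he)
      · exact hc e (Finset.mem_union_right _ he)) (by
      rintro n (rfl | rfl)
      · exact hb1
      · exact hb2) hrR hw'
    obtain ⟨j, hj⟩ := Set.mem_iUnion.1 hr'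
    refine Set.mem_iUnion₂.2 ⟨j, ⟨?_, ?_⟩, Set.mem_iUnion₂.2 ⟨r', hj, h2⟩⟩
    · refine index_ge hX hj (le_of_lt (not_le.1 fun h3 => hslab2 ?_))
      exact (h1 (nl M) (Or.inr rfl)).2 h3
    · exact index_le hX hj ((h1 (nr M) (Or.inl rfl)).1 hslab1)
  -- the probabilities
  set c : ℝ := (1 - q) ^ (2 * 3 ^ m) with hc
  have hc0 : 0 < c := pow_pos (by linarith) _
  have hB1 : ∀ M, perc (prob m X p q) (B M) ≤ ENNReal.ofReal (1 - c * (5 / 8)) := by
    intro M
    have hprod : ∏ e ∈ C M, ENNReal.ofReal (1 - prob m X p q e) =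
        ENNReal.ofReal ((1 - q) ^ (C M).card) := by
      rw [ENNReal.ofReal_pow (by linarith), ← Finset.prod_const]
      refine Finset.prod_congr rfl fun e he => ?_
      have := hCS M e he
      rw [nonR, Set.mem_ofPred_eq, not_not] at this
      rw [prob, if_pos this]
    set a : ℝ := (1 - q) ^ (C M).card with ha
    have hca : c ≤ a := by
      refine pow_le_pow_of_le_one (by linarith) (by linarith) ?_
      refine (Finset.card_union_le _ _).trans ?_
      have h1 := sec_card (m := m) (Z X (nr M))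
      have h2 := sec_card (m := m) (Z X (nl M))
      omega
    have ha1 : a ≤ 1 := pow_le_one₀ (by linarith) (by linarith)
    have hcyl : perc (prob m X p q) {ω | ∀ e ∈ C M, ω e = false} = ENNReal.ofReal a := by
      have h1 := perc_cyl h (C M) ∅ (by simp)
      rw [Finset.prod_empty, mul_one, hprod] at h1
      simpa using h1
    have hmeas : MeasurableSet {ω : Config m | ∀ e ∈ C M, ω e = false} := by
      have h1 : {ω : Config m | ∀ e ∈ C M, ω e = false} = ⋂ e ∈ C M, {ω | ω e = false} := by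
        ext ω
        simp
      rw [h1]
      refine MeasurableSet.biInter (Finset.countable_toSet _) fun e _ => ?_
      exact (measurable_pi_apply (X := fun _ : Edge m => Bool) e) (MeasurableSet.singleton false)
    have h1 := byp_le h hX (C M) (hCS M) hS hε (hnr2 M)
    have h2 := byp_le h hX (C M) (hCS M) hS hε (hnl2 M)
    rw [hprod] at h1 h2
    have h3 : perc (prob m X p q) ({ω | ∀ e ∈ C M, ω e = false}ᶜ) = ENNReal.ofReal (1 - a) := by
      rw [prob_compl_eq_one_sub hmeas, hcyl, ENNReal.ofReal_sub _ (by linarith),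
        ENNReal.ofReal_one]
    have h4 : (2⁻¹ ^ 4 + (2⁻¹ ^ 4 + 2⁻¹ ^ 4) : ENNReal) = ENNReal.ofReal (3 / 16) := by
      have h5 : (2⁻¹ ^ 4 : ENNReal) = ENNReal.ofReal (1 / 16) := by
        rw [← ENNReal.ofReal_ofNat, ← ENNReal.ofReal_inv_of_pos (by norm_num),
          ← ENNReal.ofReal_pow (by norm_num)]
        norm_num
      rw [h5, ← ENNReal.ofReal_add (by norm_num) (by norm_num),
        ← ENNReal.ofReal_add (by norm_num) (by norm_num)]
      norm_num
    rw [h4, ← ENNReal.ofReal_mul (by linarith)] at h1 h2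
    refine (measure_union_le _ _).trans ?_
    rw [h3]
    refine (add_le_add le_rfl ((measure_union_le _ _).trans (add_le_add h1 h2))).trans ?_
    rw [← ENNReal.ofReal_add (by positivity) (by positivity),
      ← ENNReal.ofReal_add (by linarith) (by positivity)]
    apply ENNReal.ofReal_le_ofReal
    linarith
  have h1 : perc (prob m X p q) (⋃ k : ℕ, ⋂ M ≥ k, B M) ≤ ENNReal.ofReal (1 - c * (5 / 8)) := by
    have hmono : Monotone fun k : ℕ => ⋂ M ≥ k, B M := by
      intro k l hkl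
      exact Set.biInter_subset_biInter_left fun M hM => le_trans hkl hM
    rw [hmono.measure_iUnion]
    refine iSup_le fun k => (measure_mono (Set.biInter_subset_of_mem (le_refl k))).trans (hB1 k)
  have h2 : (1 : ENNReal) ≤ ENNReal.ofReal (1 - c * (5 / 8)) := by
    rw [← hone]
    refine (measure_mono hsub).trans ((measure_union_le _ _).trans ?_)
    rw [hNul0, zero_add]
    exact h1
  rw [← ENNReal.ofReal_one, ENNReal.ofReal_le_ofReal_iff'] at h2
  rcases h2 with h2 | h2 <;> linarith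

end Pool.Agent.X297.PB
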