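import Pool.Agent.X297.PB.Tail

/-!
# Geometry of the stacked boxes
-/

open MeasureTheory ProbabilityTheory Filter

namespace Pool.Agent.X297.PB

variable {m : ℕ} {X : ℤ → ℕ}

lemma Z_succ (X : ℤ → ℕ) (n : ℤ) : Z X (n + 1) = Z X n + X n + X (n + 1) := by
  rcases lt_trichotomy n 0 with h | h | h
  · have h1 : Z X n = -X 0 - 2 * ∑ i ∈ Finset.Ioo n 0, (X i : ℤ) - X n := by
      rw [Z, if_neg (by omega), if_neg (by omega)]
    rcases eq_or_ne (n + 1) 0 with h0 | h0
    · have h2 : Z X (n + 1) = 0 := by rw [Z, if_pos h0]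
      have h3 : Finset.Ioo n 0 = ∅ := by
        ext i
        simp only [Finset.mem_Ioo, Finset.notMem_empty, iff_false]
        omega
      rw [h1, h2, h3, h0]
      simp
    · have h2 : Z X (n + 1) = -X 0 - 2 * ∑ i ∈ Finset.Ioo (n + 1) 0, (X i : ℤ) - X (n + 1) := by
        rw [Z, if_neg h0, if_neg (by omega)]
      have h3 : Finset.Ioo n 0 = insert (n + 1) (Finset.Ioo (n + 1) 0) := by
        ext i
        simp only [Finset.mem_Ioo, Finset.mem_insert]
        omega
      rw [h1, h2, h3, Finset.sum_insert (by simp)]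
      ring
  · subst h
    have h2 : Z X (0 + 1) = X 0 + 2 * ∑ i ∈ Finset.Ioo 0 (0 + 1), (X i : ℤ) + X (0 + 1) := by
      rw [Z, if_neg (by omega), if_pos (by omega)]
    have h3 : Finset.Ioo (0 : ℤ) (0 + 1) = ∅ := by
      ext i
      simp only [Finset.mem_Ioo, Finset.notMem_empty, iff_false]
      omega
    have h4 : Z X 0 = 0 := by rw [Z, if_pos rfl]
    rw [h2, h3, h4]
    simp
  · have h1 : Z X n = X 0 + 2 * ∑ i ∈ Finset.Ioo 0 n, (X i : ℤ) + X n := by
      rw [Z, if_neg (by omega), if_pos (by omega)]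
    have h2 : Z X (n + 1) = X 0 + 2 * ∑ i ∈ Finset.Ioo 0 (n + 1), (X i : ℤ) + X (n + 1) := by
      rw [Z, if_neg (by omega), if_pos (by omega)]
    have h3 : Finset.Ioo 0 (n + 1) = insert n (Finset.Ioo 0 n) := by
      ext i
      simp only [Finset.mem_Ioo, Finset.mem_insert]
      omega
    rw [h1, h2, h3, Finset.sum_insert (by simp)]
    ring

/-- The sum of the `i` values to the right of `n`. -/
def sumR (X : ℤ → ℕ) (n : ℤ) (i : ℕ) : ℕ := ∑ l ∈ Finset.range i, X (n + 1 + l)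

/-- The sum of the `i` values to the left of `n`. -/
def sumL (X : ℤ → ℕ) (n : ℤ) (i : ℕ) : ℕ := ∑ l ∈ Finset.range i, X (n - 1 - l)

lemma Z_right (X : ℤ → ℕ) (n : ℤ) (i : ℕ) :
    Z X (n + 1 + i) = Z X n + X n + 2 * sumR X n i + X (n + 1 + i) := by
  induction i with
  | zero => simp [sumR, Z_succ]
  | succ i ih =>
    have h1 : n + 1 + ((i + 1 : ℕ) : ℤ) = n + 1 + i + 1 := by push_cast; ring
    have h2 : sumR X n (i + 1) = sumR X n i + X (n + 1 + i) := by
      rw [sumR, Finset.sum_range_succ, sumR]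
    rw [h1, Z_succ, ih, h2]
    push_cast
    ring

lemma Z_left (X : ℤ → ℕ) (n : ℤ) (i : ℕ) :
    Z X (n - 1 - i) = Z X n - X n - 2 * sumL X n i - X (n - 1 - i) := by
  induction i with
  | zero =>
    have h := Z_succ X (n - 1)
    rw [sub_add_cancel] at h
    simp only [sumL, Finset.range_zero, Finset.sum_empty, Nat.cast_zero, mul_zero, sub_zero]
    linarith
  | succ i ih =>
    have h1 : n - 1 - ((i + 1 : ℕ) : ℤ) = n - 1 - i - 1 := by push_cast; ring
    have h2 : sumL X n (i + 1) = sumL X n i + X (n - 1 - i) := by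
      rw [sumL, Finset.sum_range_succ, sumL]
    have h := Z_succ X (n - 1 - i - 1)
    rw [sub_add_cancel] at h
    rw [h1, h2]
    push_cast
    linarith

lemma int_cases (n j : ℤ) : j = n ∨ (∃ i : ℕ, j = n + 1 + i) ∨ ∃ i : ℕ, j = n - 1 - i := by
  rcases lt_trichotomy j n with h | h | h
  · right; right
    exact ⟨(n - 1 - j).toNat, by omega⟩
  · left; exact h
  · right; left
    exact ⟨(j - n - 1).toNat, by omega⟩

lemma sum_ge (hX : ∀ n, 1 ≤ X n) (n : ℤ) (i : ℕ) : i ≤ sumR X n i ∧ i ≤ sumL X n i := by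
  constructor
  · calc i = ∑ l ∈ Finset.range i, 1 := by simp
      _ ≤ _ := Finset.sum_le_sum fun l _ => hX _
  · calc i = ∑ l ∈ Finset.range i, 1 := by simp
      _ ≤ _ := Finset.sum_le_sum fun l _ => hX _

lemma Z_ge (hX : ∀ n, 1 ≤ X n) {n : ℤ} (hn : 0 < n) : n ≤ Z X n := by
  obtain ⟨i, rfl⟩ : ∃ i : ℕ, n = 0 + 1 + i := ⟨(n - 1).toNat, by omega⟩
  have h := Z_right X 0 i
  have h0 : Z X 0 = 0 := by rw [Z, if_pos rfl]
  have h1 := (sum_ge hX 0 i).1
  have h2 := hX 0
  rw [h, h0]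
  have h3 : (1 : ℤ) ≤ X 0 := by exact_mod_cast h2
  have h4 : (i : ℤ) ≤ sumR X 0 i := by exact_mod_cast h1
  have h5 : (0 : ℤ) ≤ X (0 + 1 + i) := by positivity
  linarith

lemma Z_le (hX : ∀ n, 1 ≤ X n) {n : ℤ} (hn : n < 0) : Z X n ≤ n := by
  obtain ⟨i, rfl⟩ : ∃ i : ℕ, n = 0 - 1 - i := ⟨(- 1 - n).toNat, by omega⟩
  have h := Z_left X 0 i
  have h0 : Z X 0 = 0 := by rw [Z, if_pos rfl]
  have h1 := (sum_ge hX 0 i).2
  have h2 := hX 0
  rw [h, h0]
  have h3 : (1 : ℤ) ≤ X 0 := by exact_mod_cast h2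
  have h4 : (i : ℤ) ≤ sumL X 0 i := by exact_mod_cast h1
  have h5 : (0 : ℤ) ≤ X (0 - 1 - i) := by positivity
  linarith

/-- A box to the right of `n`. -/
lemma box_right (hX : ∀ n, 1 ≤ X n) {n : ℤ} {i : ℕ} {v : V m}
    (hv : v ∈ box m (Z X (n + 1 + i)) (X (n + 1 + i))) :
    Z X n + 1 + 2 * sumR X n i ≤ v.2 := by
  have h1 := Z_right X n i
  have h2 := hv.2.1
  have h3 : (1 : ℤ) ≤ X n := by exact_mod_cast hX n
  linarith

/-- A box to the left of `n`. -/
lemma box_left (hX : ∀ n, 1 ≤ X n) {n : ℤ} {i : ℕ} {v : V m}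
    (hv : v ∈ box m (Z X (n - 1 - i)) (X (n - 1 - i))) :
    v.2 ≤ Z X n - 1 - 2 * sumL X n i := by
  have h1 := Z_left X n i
  have h2 := hv.2.2
  have h3 : (1 : ℤ) ≤ X n := by exact_mod_cast hX n
  linarith

/-- A vertex of `R` between the planes of `n'` and `n`. -/
lemma index_le (hX : ∀ n, 1 ≤ X n) {n j : ℤ} {v : V m} (hv : v ∈ box m (Z X j) (X j))
    (h : v.2 ≤ Z X n) : j ≤ n := by
  by_contra hcon
  obtain ⟨i, rfl⟩ : ∃ i : ℕ, j = n + 1 + i := ⟨(j - n - 1).toNat, by omega⟩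
  have := box_right hX hv
  have h2 : (0 : ℤ) ≤ sumR X n i := by positivity
  linarith

lemma index_ge (hX : ∀ n, 1 ≤ X n) {n j : ℤ} {v : V m} (hv : v ∈ box m (Z X j) (X j))
    (h : Z X n ≤ v.2) : n ≤ j := by
  by_contra hcon
  obtain ⟨i, rfl⟩ : ∃ i : ℕ, j = n - 1 - i := ⟨(n - 1 - j).toNat, by omega⟩
  have := box_left hX hv
  have h2 : (0 : ℤ) ≤ sumL X n i := by positivity
  linarith

/-- The vertices of a box. -/
lemma box_card (a : ℤ) (r : ℕ) : ∃ F : Finset (V m), (∀ v ∈ box m a r, v ∈ F) ∧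
    F.card = (2 * r + 1) ^ (m + 1) := by
  classical
  refine ⟨Finset.Icc (fun _ => -(r : ℤ)) (fun _ => (r : ℤ)) ×ˢ Finset.Icc (a - r) (a + r),
    fun v hv => ?_, ?_⟩
  · rw [Finset.mem_product, Finset.mem_Icc, Finset.mem_Icc]
    refine ⟨⟨fun i => ?_, fun i => ?_⟩, hv.2⟩
    · have h1 : (v.1 i).natAbs ≤ r := le_trans
        (Finset.single_le_sum (f := fun i => (v.1 i).natAbs) (fun _ _ => Nat.zero_le _)
          (Finset.mem_univ i)) hv.1
      change -(r : ℤ) ≤ v.1 i
      omega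
    · have h1 : (v.1 i).natAbs ≤ r := le_trans
        (Finset.single_le_sum (f := fun i => (v.1 i).natAbs) (fun _ _ => Nat.zero_le _)
          (Finset.mem_univ i)) hv.1
      change v.1 i ≤ (r : ℤ)
      omega
  · rw [Finset.card_product, Pi.card_Icc, Int.card_Icc]
    simp only [Int.card_Icc, Finset.prod_const, Finset.card_univ, Fintype.card_fin]
    rw [show (a + r + 1 - (a - r)).toNat = 2 * r + 1 by omega,
      show ((r : ℤ) + 1 - -(r : ℤ)).toNat = 2 * r + 1 by omega, pow_succ]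

lemma box_finite (a : ℤ) (r : ℕ) : (box m a r).Finite := by
  obtain ⟨F, hF, -⟩ := box_card (m := m) a r
  exact F.finite_toSet.subset hF

/-- The edges which do not have both endpoints in `R`. -/
def nonR (m : ℕ) (X : ℤ → ℕ) : Set (Edge m) := {e | ¬(e.1 ∈ R m X ∧ e.1 + unit m e.2 ∈ R m X)}

/-- Connections outside of the boxes from one side of the plane `z = h + 1/2` to the other. -/
def byp (m : ℕ) (X : ℤ → ℕ) (h : ℤ) : Set (Config m) :=
  {ω | ∃ r ∈ R m X, ∃ w, Relation.ReflTransGen (Adj (res (nonR m X) ω)) r w ∧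
    ((r.2 ≤ h ∧ h < w.2) ∨ (h < r.2 ∧ w.2 ≤ h))}

/-- The edges of the narrow section. -/
noncomputable def sec (m : ℕ) (h : ℤ) : Finset (Edge m) :=
  ((Finset.Icc (fun _ => -1) (fun _ => 1) : Finset (Fin m → ℤ)).filter
    fun x => ∑ i, (x i).natAbs ≤ 1).image fun x => ((x, h), none)

lemma sec_card (h : ℤ) : (sec m h).card ≤ 3 ^ m := by
  refine Finset.card_image_le.trans ((Finset.card_filter_le _ _).trans ?_)
  rw [Pi.card_Icc]
  simp

lemma mem_sec {h : ℤ} {v : V m} (hv : ∑ i, (v.1 i).natAbs ≤ 1) (h2 : v.2 = h) :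
    ((v, none) : Edge m) ∈ sec m h := by
  subst h2
  refine Finset.mem_image.2 ⟨v.1, ?_, rfl⟩
  rw [Finset.mem_filter, Finset.mem_Icc]
  refine ⟨⟨fun i => ?_, fun i => ?_⟩, hv⟩
  · have h1 : (v.1 i).natAbs ≤ 1 := le_trans
      (Finset.single_le_sum (f := fun i => (v.1 i).natAbs) (fun _ _ => Nat.zero_le _)
        (Finset.mem_univ i)) hv
    change (-1 : ℤ) ≤ v.1 i
    omega
  · have h1 : (v.1 i).natAbs ≤ 1 := le_trans
      (Finset.single_le_sum (f := fun i => (v.1 i).natAbs) (fun _ _ => Nat.zero_le _)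
        (Finset.mem_univ i)) hv
    change v.1 i ≤ (1 : ℤ)
    omega

/-- The edges of the narrow section have both endpoints in `R`. -/
lemma sec_R {n : ℤ} (hn : X n = 1) {e : Edge m} (he : e ∈ sec m (Z X n)) : e ∉ nonR m X := by
  obtain ⟨x, hx, rfl⟩ := Finset.mem_image.1 he
  rw [Finset.mem_filter] at hx
  have h1 : ((x, Z X n) : V m) ∈ R m X := by
    refine Set.mem_iUnion.2 ⟨n, ?_⟩
    rw [hn]
    exact ⟨hx.2, by simp, by simp⟩
  have h2 : ((x, Z X n) : V m) + unit m none ∈ R m X := by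
    refine Set.mem_iUnion.2 ⟨n, ?_⟩
    rw [hn]
    refine ⟨?_, ?_, ?_⟩
    · simpa [unit] using hx.2
    · simp only [unit, Prod.snd_add, Nat.cast_one]
      omega
    · simp only [unit, Prod.snd_add, Nat.cast_one]
      omega
  exact fun h => h ⟨h1, h2⟩

/-- An edge with both endpoints in `R` which crosses the plane belongs to the narrow section. -/
lemma cross_sec (hX : ∀ n, 1 ≤ X n) {n : ℤ} (hn : X n = 1) {v : V m} {i : Option (Fin m)}
    (hv : v ∈ R m X) (h1 : v.2 ≤ Z X n) (h2 : Z X n < (v + unit m i).2) :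
    (v, i) ∈ sec m (Z X n) := by
  rcases i with _ | i
  · have h3 : v.2 = Z X n := by
      simp only [unit, Prod.snd_add] at h2
      omega
    obtain ⟨j, hj⟩ := Set.mem_iUnion.1 hv
    have h4 : j = n := le_antisymm (index_le hX hj h3.le) (index_ge hX hj h3.ge)
    subst h4
    rw [hn] at hj
    exact mem_sec hj.1 h3
  · simp only [unit, Prod.snd_add] at h2
    omega

/-- The side of the plane. -/
lemma side_iff {n : ℤ} {r w : V m} {ω : Config m} (hr : r ∈ R m X) (hb : ω ∉ byp m X (Z X n))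
    (h : Relation.ReflTransGen (Adj (res (nonR m X) ω)) r w) : r.2 ≤ Z X n ↔ w.2 ≤ Z X n := by
  by_contra hcon
  apply hb
  refine ⟨r, hr, w, h, ?_⟩
  by_cases h1 : r.2 ≤ Z X n
  · left
    refine ⟨h1, ?_⟩
    by_contra h2
    exact hcon ⟨fun _ => not_lt.1 h2, fun _ => h1⟩
  · right
    refine ⟨not_le.1 h1, ?_⟩
    by_contra h2
    exact hcon ⟨fun h => absurd h h1, fun h => absurd h h2⟩

/-- The cluster of a vertex of `R` does not cross a blocked plane. -/
lemma blocked (hX : ∀ n, 1 ≤ X n) {T : Set ℤ} (hT : ∀ n ∈ T, X n = 1) {ω : Config m}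
    (hc : ∀ n ∈ T, ∀ e ∈ sec m (Z X n), ω e = false) (hb : ∀ n ∈ T, ω ∉ byp m X (Z X n)) {r : V m}
    (hr : r ∈ R m X) {w : V m} (h : Relation.ReflTransGen (Adj ω) r w) :
    ∃ r' ∈ R m X, (∀ n ∈ T, (r.2 ≤ Z X n ↔ r'.2 ≤ Z X n)) ∧
      Relation.ReflTransGen (Adj (res (nonR m X) ω)) r' w := by
  induction h with
  | refl => exact ⟨r, hr, fun n _ => Iff.rfl, Relation.ReflTransGen.refl⟩
  | @tail a b hab hadj ih =>
    obtain ⟨r', hr', h1, h2⟩ := ih
    by_cases h3 : Adj (res (nonR m X) ω) a b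
    · exact ⟨r', hr', h1, h2.tail h3⟩
    · have h4 : a ∈ R m X ∧ b ∈ R m X := by
        obtain ⟨i, h5 | h5⟩ := hadj
        · by_contra h6
          refine h3 ⟨i, Or.inl ⟨h5.1, res_true.2 ⟨h5.2, ?_⟩⟩⟩
          rw [h5.1] at h6
          exact h6
        · by_contra h6
          refine h3 ⟨i, Or.inr ⟨h5.1, res_true.2 ⟨h5.2, ?_⟩⟩⟩
          intro h7
          rw [← h5.1] at h7
          exact h6 ⟨h7.2, h7.1⟩
      refine ⟨b, h4.2, fun n hn => ?_, Relation.ReflTransGen.refl⟩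
      have h5 : r'.2 ≤ Z X n ↔ a.2 ≤ Z X n := side_iff hr' (hb n hn) h2
      rw [h1 n hn, h5]
      by_contra h6
      obtain ⟨i, h7 | h7⟩ := hadj
      · by_cases h8 : a.2 ≤ Z X n
        · have h9 : Z X n < b.2 := by
            by_contra h10
            exact h6 ⟨fun _ => not_lt.1 h10, fun _ => h8⟩
          have h10 := hc n hn _ (cross_sec hX (hT n hn) h4.1 h8 (i := i) (by rw [← h7.1]; exact h9))
          rw [h7.2] at h10
          exact absurd h10 (by simp)
        · have h9 : b.2 ≤ Z X n := by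
            by_contra h10
            exact h6 ⟨fun h => absurd h h8, fun h => absurd h h10⟩
          apply h8
          refine le_trans ?_ h9
          rw [h7.1]
          rcases i with _ | i <;> simp [unit]
      · by_cases h8 : b.2 ≤ Z X n
        · have h9 : Z X n < a.2 := by
            by_contra h10
            exact h6 ⟨fun _ => h8, fun _ => not_lt.1 h10⟩
          have h10 := hc n hn _ (cross_sec hX (hT n hn) h4.2 h8 (i := i) (by rw [← h7.1]; exact h9))
          rw [h7.2] at h10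
          exact absurd h10 (by simp)
        · have h9 : a.2 ≤ Z X n := by
            by_contra h10
            exact h6 ⟨fun h => absurd h h10, fun h => absurd h h8⟩
          apply h8
          refine le_trans ?_ h9
          rw [h7.1]
          rcases i with _ | i <;> simp [unit]

end Pool.Agent.X297.PB
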