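import Pool.Agent.X297.PB.Clu
import Mathlib.Probability.Independence.ZeroOne
import Mathlib.Probability.Independence.InfinitePi

/-!
# The zero-one law for the existence of infinite clusters
-/

open MeasureTheory ProbabilityTheory Filter

namespace Pool.Agent.X297.PB

variable {m : ℕ}

/-- Connection by a given number of steps. -/
def rch (ω : Config m) (v : V m) : ℕ → V m → Prop
  | 0, w => w = v
  | n + 1, w => ∃ u, rch ω v n u ∧ Adj ω u w

lemma rch_iff {ω : Config m} {v w : V m} :
    Relation.ReflTransGen (Adj ω) v w ↔ ∃ n, rch ω v n w := by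
  constructor
  · intro h
    induction h with
    | refl => exact ⟨0, rfl⟩
    | tail _ hab ih =>
      obtain ⟨n, hn⟩ := ih
      exact ⟨n + 1, _, hn, hab⟩
  · rintro ⟨n, hn⟩
    induction n generalizing w with
    | zero =>
      rw [show w = v from hn]
    | succ n ih =>
      obtain ⟨u, hu, hw⟩ := hn
      exact (ih hu).tail hw

lemma meas_adj (v w : V m) : MeasurableSet {ω : Config m | Adj ω v w} := by
  have h : {ω : Config m | Adj ω v w} = ⋃ i, (({ω | w = v + unit m i} ∩ {ω | ω (v, i) = true}) ∪
      ({ω | v = w + unit m i} ∩ {ω | ω (w, i) = true})) := by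
    ext ω
    simp only [Adj, Set.mem_iUnion, Set.mem_union, Set.mem_inter_iff, Set.mem_ofPred_eq]
  rw [h]
  refine MeasurableSet.iUnion fun i => ((MeasurableSet.const _).inter ?_).union
    ((MeasurableSet.const _).inter ?_)
  · exact (measurable_pi_apply (X := fun _ : Edge m => Bool) (v, i))
      (MeasurableSet.singleton true)
  · exact (measurable_pi_apply (X := fun _ : Edge m => Bool) (w, i))
      (MeasurableSet.singleton true)

lemma meas_rch (v : V m) (n : ℕ) (w : V m) : MeasurableSet {ω : Config m | rch ω v n w} := by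
  induction n generalizing w with
  | zero => exact MeasurableSet.const _
  | succ n ih =>
    have h : {ω : Config m | rch ω v (n + 1) w} =
        ⋃ u, {ω : Config m | rch ω v n u} ∩ {ω | Adj ω u w} := by
      ext ω
      simp only [rch, Set.mem_iUnion, Set.mem_inter_iff, Set.mem_ofPred_eq]
    rw [h]
    exact MeasurableSet.iUnion fun u => (ih u).inter (meas_adj u w)

lemma infinite_iff {ω : Config m} {v : V m} :
    (cluster ω v).Infinite ↔ ∀ L : ℕ, ∃ w, w ∈ cluster ω v ∧ (L : ℤ) < nrm (w - v) := by
  constructor
  · intro h L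
    by_contra hcon
    apply h
    refine (finite_ball v L).subset fun w hw => ?_
    by_contra h2
    exact hcon ⟨w, hw, not_le.1 h2⟩
  · intro h hfin
    obtain ⟨B, hB⟩ := (hfin.image fun w => nrm (w - v)).bddAbove
    obtain ⟨w, hw, h2⟩ := h B.toNat
    have h3 := hB ⟨w, hw, rfl⟩
    have h4 := Int.self_le_toNat B
    simp only at h3
    omega

/-- There is an infinite cluster. -/
def perco (m : ℕ) : Set (Config m) := {ω | ∃ v, (cluster ω v).Infinite}

lemma meas_perco : MeasurableSet (perco m) := by
  have h : perco m = ⋃ v, ⋂ L : ℕ, ⋃ w, ⋃ n, {ω : Config m | rch ω v n w} ∩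
      {ω | (L : ℤ) < nrm (w - v)} := by
    ext ω
    simp only [perco, Set.mem_iUnion, Set.mem_iInter, Set.mem_inter_iff, Set.mem_ofPred_eq,
      infinite_iff]
    refine exists_congr fun v => forall_congr' fun L => exists_congr fun w => ?_
    constructor
    · rintro ⟨h1, h2⟩
      obtain ⟨n, hn⟩ := rch_iff.1 h1
      exact ⟨n, hn, h2⟩
    · rintro ⟨n, hn, h2⟩
      exact ⟨rch_iff.2 ⟨n, hn⟩, h2⟩
  rw [h]
  exact MeasurableSet.iUnion fun v => MeasurableSet.iInter fun L => MeasurableSet.iUnion fun w =>
    MeasurableSet.iUnion fun n => (meas_rch v n w).inter (MeasurableSet.const _)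

lemma adj_res {S : Set (Edge m)} {ω : Config m} {v w : V m} (h : Adj (res S ω) v w) :
    Adj ω v w := by
  obtain ⟨i, h | h⟩ := h
  · exact ⟨i, Or.inl ⟨h.1, (res_true.1 h.2).1⟩⟩
  · exact ⟨i, Or.inr ⟨h.1, (res_true.1 h.2).1⟩⟩

lemma cluster_res {S : Set (Edge m)} {ω : Config m} {v : V m} :
    cluster (res S ω) v ⊆ cluster ω v := by
  intro w hw
  have hw' : Relation.ReflTransGen (Adj (res S ω)) v w := hw
  exact (Relation.ReflTransGen.mono (fun _ _ h => adj_res h)) v w hw'

/-- Closing finitely many edges does not destroy all infinite clusters. -/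
lemma perco_res {S : Set (Edge m)} (hS : Sᶜ.Finite) (ω : Config m) :
    res S ω ∈ perco m ↔ ω ∈ perco m := by
  constructor
  · rintro ⟨v, hv⟩
    exact ⟨v, hv.mono cluster_res⟩
  · rintro ⟨v, hv⟩
    by_contra hcon
    have hfin : ∀ u, (cluster (res S ω) u).Finite := by
      intro u
      by_contra h
      exact hcon ⟨u, h⟩
    apply hv
    have hfin2 : (cluster (res S ω) v ∪ ⋃ e ∈ Sᶜ, (cluster (res S ω) e.1 ∪
        cluster (res S ω) (e.1 + unit m e.2))).Finite :=
      (hfin v).union (hS.biUnion fun e _ => (hfin _).union (hfin _))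
    refine hfin2.subset fun w hw => ?_
    have hw' : Relation.ReflTransGen (Adj ω) v w := hw
    induction hw' with
    | refl => exact Or.inl Relation.ReflTransGen.refl
    | @tail a b hab hadj ih =>
      by_cases h1 : Adj (res S ω) a b
      · rcases ih hab with h2 | h2
        · exact Or.inl (Relation.ReflTransGen.tail h2 h1)
        · right
          simp only [Set.mem_iUnion] at h2 ⊢
          obtain ⟨e, he, h2 | h2⟩ := h2
          · exact ⟨e, he, Or.inl (Relation.ReflTransGen.tail h2 h1)⟩
          · exact ⟨e, he, Or.inr (Relation.ReflTransGen.tail h2 h1)⟩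
      · right
        simp only [Set.mem_iUnion]
        obtain ⟨i, h2 | h2⟩ := hadj
        · refine ⟨(a, i), ?_, Or.inr ?_⟩
          · intro hmem
            exact h1 ⟨i, Or.inl ⟨h2.1, res_true.2 ⟨h2.2, hmem⟩⟩⟩
          · rw [h2.1]
            exact Relation.ReflTransGen.refl
        · refine ⟨(b, i), ?_, Or.inl Relation.ReflTransGen.refl⟩
          intro hmem
          exact h1 ⟨i, Or.inr ⟨h2.1, res_true.2 ⟨h2.2, hmem⟩⟩⟩

/-- **The zero-one law.** -/
theorem zero_one {π : Edge m → ℝ} (h : ∀ e, 0 ≤ π e ∧ π e ≤ 1) :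
    perc π (perco m) = 0 ∨ perc π (perco m) = 1 := by
  classical
  have : ∀ e, IsProbabilityMeasure (bern (π e)) := fun e => isProb_bern (h e).1 (h e).2
  have hind : iIndepFun (fun (e : Edge m) (ω : Config m) => ω e) (perc π) :=
    iIndepFun_infinitePi (P := fun e => bern (π e)) (X := fun _ x => x) fun _ => measurable_id
  refine measure_zero_or_one_of_measurableSet_limsup (f := Filter.cofinite)
    (s := fun e : Edge m => MeasurableSpace.comap (fun ω : Config m => ω e) ⊤)
    (p := fun t => t.Finite) (ns := fun F : Finset (Edge m) => (F : Set (Edge m)))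
    (fun e => (measurable_pi_apply e).comap_le) hind.iIndep (fun t ht => ?_) ?_
    (fun F => F.finite_toSet) (fun e => ⟨{e}, by simp⟩) ?_
  · rw [Filter.mem_cofinite, compl_compl]
    exact ht
  · exact fun F G => ⟨F ∪ G, by simp, by simp⟩
  · rw [Filter.limsup_eq_iInf_iSup, MeasurableSpace.measurableSet_iInf]
    intro t
    rw [MeasurableSpace.measurableSet_iInf]
    intro ht
    have h1 : (res t) ⁻¹' (perco m) = perco m := by
      ext ω
      exact perco_res ht ω
    rw [← h1]
    have h2 : @Measurable _ _ (⨆ a ∈ t, MeasurableSpace.comap (fun ω : Config m => ω a) ⊤)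
        MeasurableSpace.pi (res t) := by
      refine @measurable_pi_lambda _ _ _ (_) _ _ fun e => ?_
      by_cases he : e ∈ t
      · have h3 : (fun ω : Config m => res t ω e) = fun ω => ω e := by
          funext ω
          rw [res, if_pos he]
        rw [h3]
        exact Measurable.mono (comap_measurable _) (le_iSup₂_of_le e he le_rfl) le_rfl
      · have h3 : (fun ω : Config m => res t ω e) = fun ω => false := by
          funext ω
          rw [res, if_neg he]
        rw [h3]
        exact @measurable_const _ _ _ (_) _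
    exact h2 meas_perco

end Pool.Agent.X297.PB
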