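import Pool.Agent.X297.PB.Cyl
import Mathlib.Combinatorics.SimpleGraph.Connectivity.Connected

/-!
# Open paths
-/

open MeasureTheory

namespace Pool.Agent.X297.PB

variable {m : ℕ}

lemma unit_ne (i : Option (Fin m)) : unit m i ≠ 0 := by
  rcases i with _ | i
  · intro h
    have := congrArg Prod.snd h
    simp [unit] at this
  · intro h
    have := congrFun (congrArg Prod.fst h) i
    simp [unit] at this

/-- The configuration restricted to a set of edges. -/
noncomputable def res (S : Set (Edge m)) (ω : Config m) : Config m :=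
  open Classical in fun e => if e ∈ S then ω e else false

lemma res_true {S : Set (Edge m)} {ω : Config m} {e : Edge m} :
    res S ω e = true ↔ ω e = true ∧ e ∈ S := by
  classical
  rw [res]
  split_ifs with h <;> simp [h]

lemma Adj.symm {ω : Config m} {v w : V m} (h : Adj ω v w) : Adj ω w v := by
  obtain ⟨i, h | h⟩ := h
  · exact ⟨i, Or.inr h⟩
  · exact ⟨i, Or.inl h⟩

lemma Adj.ne {ω : Config m} {v w : V m} (h : Adj ω v w) : v ≠ w := by
  rintro rfl
  obtain ⟨i, h | h⟩ := h
  · exact unit_ne i (left_eq_add.1 h.1)
  · exact unit_ne i (left_eq_add.1 h.1)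

/-- The graph of the open edges. -/
def gr (ω : Config m) : SimpleGraph (V m) where
  Adj v w := Adj ω v w
  symm := ⟨fun _ _ h => h.symm⟩
  loopless := ⟨fun _ h => h.ne rfl⟩

/-- The direction of a step. -/
lemma Adj.dir {ω : Config m} {v w : V m} (h : Adj ω v w) : ∃ d : Dir m, w = v + vec d ∧
    ω (if d.2 then (v, d.1) else (w, d.1)) = true := by
  obtain ⟨i, h | h⟩ := h
  · exact ⟨(i, true), by simp [vec, h.1], by simpa using h.2⟩
  · refine ⟨(i, false), ?_, by simpa using h.2⟩
    rw [h.1]
    simp [vec]

/-- A long open path contains a self-avoiding walk of given length. -/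
lemma exists_walk {ω : Config m} {v w : V m} (h : Relation.ReflTransGen (Adj ω) v w)
    {D : V m → V m → ℤ} (hD0 : D v v ≤ 0)
    (hD : ∀ x y d, y = x + vec d → D v y ≤ D v x + 1) {L : ℕ} (hL : (L : ℤ) ≤ D v w) :
    ∃ s : Fin L → Dir m, (∀ i j, i ≤ L → j ≤ L → pos v s i = pos v s j → i = j) ∧
      ∀ k, ω (edg v s k) = true := by
  have h1 : (gr ω).Reachable v w := by
    rw [SimpleGraph.reachable_iff_reflTransGen]
    exact h
  obtain ⟨p, hp⟩ := h1.exists_isPath
  have h2 : ∀ k, k ≤ p.length → D v (p.getVert k) ≤ k := by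
    intro k hk
    induction k with
    | zero => simpa using hD0
    | succ k ih =>
      have h3 : Adj ω (p.getVert k) (p.getVert (k + 1)) := p.adj_getVert_succ (by omega)
      obtain ⟨d, hd, -⟩ := h3.dir
      have := hD _ _ d hd
      have := ih (by omega)
      push_cast
      linarith
  have hlen : L ≤ p.length := by
    have := h2 p.length le_rfl
    rw [p.getVert_length] at this
    exact_mod_cast hL.trans this
  have h3 : ∀ k : Fin L, ∃ d : Dir m, p.getVert (k + 1) = p.getVert k + vec d ∧
      ω (if d.2 then (p.getVert k, d.1) else (p.getVert (k + 1), d.1)) = true := by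
    intro k
    have h4 : Adj ω (p.getVert k) (p.getVert (k + 1)) := p.adj_getVert_succ (by omega)
    exact h4.dir
  choose s hs1 hs2 using h3
  have h4 : ∀ k, k ≤ L → pos v s k = p.getVert k := by
    intro k hk
    induction k with
    | zero => rw [pos_zero, p.getVert_zero]
    | succ k ih =>
      have h5 := pos_succ v s ⟨k, by omega⟩
      simp only at h5
      rw [h5, ih (by omega)]
      exact (hs1 ⟨k, by omega⟩).symm
  refine ⟨s, fun i j hi hj hij => ?_, fun k => ?_⟩
  · rw [h4 i hi, h4 j hj] at hij
    exact hp.getVert_injOn (by simp; omega) (by simp; omega) hij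
  · have h5 := hs2 k
    rw [edg, h4 k (by omega), h4 (k + 1) (by omega)]
    exact h5

end Pool.Agent.X297.PB
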